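import Mathlib

set_option autoImplicit false

namespace Pool.Agent.H212R4.Carlsson

open Matrix

section Deg

variable {k R ι : Type*} [Field k] [CommRing R] [Algebra k R] [Module.Finite k R] [Fintype ι]
  [DecidableEq ι]

/-- multiplication by a matrix, as a `k`-linear map. -/
noncomputable abbrev mv (k : Type*) {R ι : Type*} [Field k] [CommRing R] [Algebra k R] [Fintype ι]
    (M : Matrix ι ι R) : (ι → R) →ₗ[k] (ι → R) := (Matrix.mulVecLin M).restrictScalars k

/-- vectors vanishing in degrees `< m`. -/
def G (k R : Type*) {ι : Type*} [Field k] [CommRing R] [Algebra k R] (deg : ι → ℕ) (m : ℕ) :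
    Submodule k (ι → R) where
  carrier := {v | ∀ p, deg p < m → v p = 0}
  add_mem' := by
    intro a b ha hb p hp
    simp [ha p hp, hb p hp]
  zero_mem' := by intro p _; rfl
  smul_mem' := by
    intro c a ha p hp
    simp [ha p hp]

/-- vectors concentrated in degree `m`. -/
def Cm (k R : Type*) {ι : Type*} [Field k] [CommRing R] [Algebra k R] (deg : ι → ℕ) (m : ℕ) :
    Submodule k (ι → R) where
  carrier := {v | ∀ p, deg p ≠ m → v p = 0}
  add_mem' := by
    intro a b ha hb p hp
    simp [ha p hp, hb p hp]
  zero_mem' := by intro p _; rfl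
  smul_mem' := by
    intro c a ha p hp
    simp [ha p hp]

/-- the component of degree `m`. -/
def proj (k R : Type*) {ι : Type*} [Field k] [CommRing R] [Algebra k R] (deg : ι → ℕ) (m : ℕ) :
    (ι → R) →ₗ[k] (ι → R) where
  toFun v := fun p => if deg p = m then v p else 0
  map_add' := by
    intro a b
    funext p
    by_cases h : deg p = m <;> simp [h]
  map_smul' := by
    intro c a
    funext p
    by_cases h : deg p = m <;> simp [h]

theorem proj_mem (A N : Matrix ι ι R) (deg : ι → ℕ)
    (hA : ∀ p q, A p q ≠ 0 → deg q = deg p + 1) (hN : ∀ p q, N p q ≠ 0 → deg q = deg p)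
    (m : ℕ) (v : ι → R) (hv : v ∈ LinearMap.ker (mv k (A + N))) (hG : v ∈ G k R deg m) :
    proj k R deg m v ∈ LinearMap.ker (mv k A) ⊓ Cm k R deg m := by
  refine Submodule.mem_inf.2 ⟨?_, ?_⟩
  · rw [LinearMap.mem_ker] at hv ⊢
    funext p
    have h1 := congrFun hv p
    simp only [mv, LinearMap.coe_restrictScalars, Matrix.mulVecLin_apply, Matrix.mulVec,
      dotProduct, Pi.zero_apply, Matrix.add_apply, add_mul, Finset.sum_add_distrib] at h1 ⊢
    by_cases hp : deg p + 1 = m
    · have h2 : ∑ q, N p q * v q = 0 := by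
        apply Finset.sum_eq_zero
        intro q _
        by_cases hq : N p q = 0
        · simp [hq]
        · have h3 := hN p q hq
          have h4 : v q = 0 := hG q (by omega)
          simp [h4]
      rw [h2, add_zero] at h1
      rw [← h1]
      apply Finset.sum_congr rfl
      intro q _
      by_cases hq : A p q = 0
      · simp [hq]
      · have h3 := hA p q hq
        have h4 : deg q = m := by omega
        simp [proj, h4]
    · apply Finset.sum_eq_zero
      intro q _
      by_cases hq : A p q = 0
      · simp [hq]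
      · have h3 := hA p q hq
        have h4 : deg q ≠ m := by omega
        simp [proj, h4]
  · intro p hp
    simp [proj, hp]

theorem finrank_step (A N : Matrix ι ι R) (deg : ι → ℕ)
    (hA : ∀ p q, A p q ≠ 0 → deg q = deg p + 1) (hN : ∀ p q, N p q ≠ 0 → deg q = deg p)
    (m : ℕ)
    (ih : Module.finrank k ↥(LinearMap.ker (mv k (A + N)) ⊓ G k R deg (m + 1)) ≤
      Module.finrank k ↥(LinearMap.ker (mv k A) ⊓ G k R deg (m + 1))) :
    Module.finrank k ↥(LinearMap.ker (mv k (A + N)) ⊓ G k R deg m) ≤
      Module.finrank k ↥(LinearMap.ker (mv k A) ⊓ G k R deg m) := by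
  set K := LinearMap.ker (mv k (A + N)) ⊓ G k R deg m with hK
  let f : K →ₗ[k] (ι → R) := (proj k R deg m).comp K.subtype
  have h1 := LinearMap.finrank_range_add_finrank_ker f
  have h2 : Module.finrank k (LinearMap.range f) ≤
      Module.finrank k ↥(LinearMap.ker (mv k A) ⊓ Cm k R deg m) := by
    apply Submodule.finrank_mono
    rintro _ ⟨⟨v, hv⟩, rfl⟩
    exact proj_mem A N deg hA hN m v hv.1 hv.2
  have h3 : Module.finrank k (LinearMap.ker f) ≤
      Module.finrank k ↥(LinearMap.ker (mv k (A + N)) ⊓ G k R deg (m + 1)) := by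
    have : Module.finrank k (LinearMap.ker f) =
        Module.finrank k ↥((LinearMap.ker f).map K.subtype) :=
      (LinearEquiv.finrank_eq
        (Submodule.equivMapOfInjective K.subtype K.injective_subtype (LinearMap.ker f)))
    rw [this]
    apply Submodule.finrank_mono
    rintro _ ⟨⟨v, hv⟩, hv0, rfl⟩
    refine ⟨hv.1, ?_⟩
    intro p hp
    rcases Nat.lt_succ_iff_lt_or_eq.1 hp with h | h
    · exact hv.2 p h
    · have h5 := congrFun (LinearMap.mem_ker.1 hv0) p
      simpa [f, proj, h] using h5
  have h4 : Module.finrank k ↥(LinearMap.ker (mv k A) ⊓ Cm k R deg m) +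
      Module.finrank k ↥(LinearMap.ker (mv k A) ⊓ G k R deg (m + 1)) ≤
      Module.finrank k ↥(LinearMap.ker (mv k A) ⊓ G k R deg m) := by
    have hdis : Disjoint (LinearMap.ker (mv k A) ⊓ Cm k R deg m)
        (LinearMap.ker (mv k A) ⊓ G k R deg (m + 1)) := by
      rw [Submodule.disjoint_def]
      intro v hv hv'
      funext p
      by_cases hp : deg p = m
      · exact hv'.2 p (by omega)
      · exact hv.2 p hp
    have h5 := Submodule.finrank_sup_add_finrank_inf_eq (LinearMap.ker (mv k A) ⊓ Cm k R deg m)
        (LinearMap.ker (mv k A) ⊓ G k R deg (m + 1))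
    rw [hdis.eq_bot, finrank_bot, add_zero] at h5
    rw [← h5]
    apply Submodule.finrank_mono
    apply sup_le
    · refine inf_le_inf_left _ ?_
      intro v hv p hp
      exact hv p (by omega)
    · refine inf_le_inf_left _ ?_
      intro v hv p hp
      exact hv p (by omega)
  omega

theorem finrank_ker_le (A N : Matrix ι ι R) (deg : ι → ℕ)
    (hA : ∀ p q, A p q ≠ 0 → deg q = deg p + 1) (hN : ∀ p q, N p q ≠ 0 → deg q = deg p) :
    Module.finrank k (LinearMap.ker (mv k (A + N))) ≤ Module.finrank k (LinearMap.ker (mv k A)) := by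
  obtain ⟨M, hM⟩ : ∃ M, ∀ p, deg p < M := by
    obtain ⟨M, hM⟩ := (Set.finite_range deg).bddAbove
    exact ⟨M + 1, fun p => Nat.lt_succ_of_le (hM ⟨p, rfl⟩)⟩
  have hbot : G k R deg M = ⊥ := by
    rw [eq_bot_iff]
    intro v hv
    rw [Submodule.mem_bot]
    funext p
    exact hv p (hM p)
  have htop : G k R deg 0 = ⊤ := by
    rw [eq_top_iff]
    intro v _ p hp
    omega
  have key : ∀ j, j ≤ M → Module.finrank k ↥(LinearMap.ker (mv k (A + N)) ⊓ G k R deg (M - j)) ≤
      Module.finrank k ↥(LinearMap.ker (mv k A) ⊓ G k R deg (M - j)) := by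
    intro j
    induction j with
    | zero =>
      intro _
      rw [Nat.sub_zero, hbot, inf_bot_eq, inf_bot_eq]
    | succ j ih =>
      intro hj
      apply finrank_step A N deg hA hN
      have : M - (j + 1) + 1 = M - j := by omega
      rw [this]
      exact ih (by omega)
  have := key M le_rfl
  rw [Nat.sub_self, htop, inf_top_eq, inf_top_eq] at this
  exact this

end Deg

end Pool.Agent.H212R4.Carlsson
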