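import Mathlib
import Pool.Agent.H212R4.CarlssonA

set_option autoImplicit false

namespace Pool.Agent.H212R4.Carlsson

open Matrix

section Conj

variable {R ι : Type*} [CommRing R] [Fintype ι] [DecidableEq ι]

/-- the matrix exchanging the two tensor factors. -/
def S (R ι : Type*) [CommRing R] [DecidableEq ι] : Matrix (ι × ι) (ι × ι) R :=
  Matrix.of fun p q => if q = p.swap then 1 else 0

/-- the differential of the tensor square. -/
def T (D : Matrix ι ι R) : Matrix (ι × ι) (ι × ι) R :=
  Matrix.kronecker D (1 : Matrix ι ι R) + Matrix.kronecker (1 : Matrix ι ι R) D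

theorem S_mul (M : Matrix (ι × ι) (ι × ι) R) (p q : ι × ι) : (S R ι * M) p q = M p.swap q := by
  rw [Matrix.mul_apply]
  simp [S, Matrix.of_apply, ite_mul]

theorem mul_S (M : Matrix (ι × ι) (ι × ι) R) (p q : ι × ι) : (M * S R ι) p q = M p q.swap := by
  rw [Matrix.mul_apply, Finset.sum_eq_single q.swap]
  · simp [S, Matrix.of_apply]
  · intro b _ hb
    have : q ≠ b.swap := by
      rintro rfl
      simp at hb
    simp [S, Matrix.of_apply, this]
  · simp

theorem S_kron (A B : Matrix ι ι R) :
    S R ι * Matrix.kronecker A B = Matrix.kronecker B A * S R ι := by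
  ext p q
  rw [S_mul, mul_S]
  simp [Matrix.kronecker, Matrix.kroneckerMap_apply, mul_comm]

theorem S_sq : S R ι * S R ι = 1 := by
  ext p q
  rw [S_mul]
  simp only [S, Matrix.of_apply, Prod.swap_swap, Matrix.one_apply, eq_comm]

theorem kron_mul (A B C D : Matrix ι ι R) :
    Matrix.kronecker A B * Matrix.kronecker C D = Matrix.kronecker (A * C) (B * D) := by
  simp [Matrix.kronecker, Matrix.mul_kronecker_mul]

theorem kron_add_left (A B C : Matrix ι ι R) :
    Matrix.kronecker (A + B) C = Matrix.kronecker A C + Matrix.kronecker B C :=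
  Matrix.add_kronecker A B C

theorem kron_add_right (A B C : Matrix ι ι R) :
    Matrix.kronecker C (A + B) = Matrix.kronecker C A + Matrix.kronecker C B :=
  Matrix.kronecker_add C A B

variable [CharP R 2]

theorem add_self_zero (M : Matrix (ι × ι) (ι × ι) R) : M + M = 0 := by
  ext p q
  simp [CharTwo.add_self_eq_zero]

/-- the perturbed differential. -/
def E (D : Matrix ι ι R) : Matrix (ι × ι) (ι × ι) R := T D + (1 + S R ι)

/-- the homotopy. -/
def H (D₁ : Matrix ι ι R) : Matrix (ι × ι) (ι × ι) R :=
  S R ι * Matrix.kronecker D₁ (1 : Matrix ι ι R)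

theorem homotopy (D D₁ : Matrix ι ι R) (h : D * D₁ + D₁ * D = 0) :
    H D₁ * E D + E D * H D₁ = T D₁ := by
  have key : Matrix.kronecker D₁ (1 : Matrix ι ι R) * T D +
      T D * Matrix.kronecker D₁ (1 : Matrix ι ι R) = 0 := by
    simp only [T, mul_add, add_mul, kron_mul, mul_one, one_mul]
    have h1 : Matrix.kronecker (D₁ * D) (1 : Matrix ι ι R) + Matrix.kronecker D₁ D +
        (Matrix.kronecker (D * D₁) (1 : Matrix ι ι R) + Matrix.kronecker D₁ D) =
        Matrix.kronecker (D * D₁ + D₁ * D) (1 : Matrix ι ι R) +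
          (Matrix.kronecker D₁ D + Matrix.kronecker D₁ D) := by
      rw [kron_add_left]
      abel
    rw [h1, add_self_zero, h]
    simp [Matrix.kronecker]
  have hST : S R ι * T D = T D * S R ι := by
    simp only [T, mul_add, add_mul, S_kron]
    abel
  have hS : S R ι * Matrix.kronecker D₁ (1 : Matrix ι ι R) * S R ι =
      Matrix.kronecker (1 : Matrix ι ι R) D₁ := by
    rw [S_kron, mul_assoc, S_sq, mul_one]
  set K := Matrix.kronecker D₁ (1 : Matrix ι ι R) with hK
  have e1 : H D₁ * E D + E D * H D₁ =
      S R ι * (K * T D + T D * K) + (S R ι * K + S R ι * K) + (S R ι * K * S R ι + S R ι * S R ι * K) := by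
    simp only [H, E, mul_add, add_mul, mul_one, one_mul]
    have : T D * (S R ι * K) = S R ι * (T D * K) := by
      rw [← mul_assoc, ← hST, mul_assoc]
    rw [this]
    simp only [mul_assoc]
    abel
  rw [e1, key, mul_zero, add_self_zero, hS, S_sq, one_mul]
  simp only [T]
  abel

theorem conj (D D₁ : Matrix ι ι R) (x : R) (hx : x * x = 0) (h : D * D₁ + D₁ * D = 0) :
    (1 + x • H D₁) * E D * (1 + x • H D₁) = E (D + x • D₁) := by
  have h1 : (1 + x • H D₁) * E D * (1 + x • H D₁) =
      E D + x • (H D₁ * E D + E D * H D₁) + (x * x) • (H D₁ * E D * H D₁) := by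
    simp only [mul_add, add_mul, mul_one, one_mul, smul_mul_assoc, mul_smul_comm, smul_smul,
      smul_add, mul_assoc]
    abel
  rw [h1, hx, zero_smul, add_zero, homotopy D D₁ h]
  have h2 : T (D + x • D₁) = T D + x • T D₁ := by
    simp only [T, kron_add_left, kron_add_right, smul_add]
    simp only [Matrix.kronecker, Matrix.smul_kronecker, Matrix.kronecker_smul]
    abel
  simp only [E, h2]
  abel

theorem U_sq (D₁ : Matrix ι ι R) (x : R) (hx : x * x = 0) :
    (1 + x • H D₁) * (1 + x • H D₁) = 1 := by
  have h1 : (1 + x • H D₁) * (1 + x • H D₁) =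
      1 + (x • H D₁ + x • H D₁) + (x * x) • (H D₁ * H D₁) := by
    simp only [mul_add, add_mul, mul_one, one_mul, smul_mul_assoc, mul_smul_comm, smul_add,
      smul_smul]
    abel
  rw [h1, hx, zero_smul, add_self_zero]
  simp

theorem sq_zero (D D₁ : Matrix ι ι R) (x : R) (hx : x * x = 0) (h : D * D₁ + D₁ * D = 0)
    (hD : D * D = 0) : (D + x • D₁) * (D + x • D₁) = 0 := by
  have h1 : (D + x • D₁) * (D + x • D₁) = D * D + x • (D * D₁ + D₁ * D) + (x * x) • (D₁ * D₁) := by
    simp only [mul_add, add_mul, smul_mul_assoc, mul_smul_comm, smul_smul, smul_add]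
    abel
  rw [h1, hx, h, hD]
  simp

end Conj

section Rank

variable {k R ι : Type*} [Field k] [CommRing R] [Algebra k R] [Module.Finite k R] [Fintype ι]
  [DecidableEq ι]

omit [Module.Finite k R] in
theorem mv_mul (A B : Matrix ι ι R) : mv k (A * B) = (mv k A).comp (mv k B) := by
  ext v p
  simp [mv, Matrix.mulVecLin_mul]

omit [Module.Finite k R] in
/-- conjugation by an involution, as a linear equivalence. -/
theorem mv_one : mv k (1 : Matrix ι ι R) = LinearMap.id := by
  ext v p
  simp [mv]

omit [Module.Finite k R] in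
theorem finrank_ker_conj (A U : Matrix ι ι R) (hU : U * U = 1) :
    Module.finrank k (LinearMap.ker (mv k (U * A * U))) = Module.finrank k (LinearMap.ker (mv k A)) := by
  have hUU : (mv k U).comp (mv k U) = LinearMap.id := by
    rw [← mv_mul, hU, mv_one]
  let e : (ι → R) ≃ₗ[k] (ι → R) := LinearEquiv.ofLinearMap (mv k U) (mv k U) hUU hUU
  have h1 : LinearMap.ker (mv k (U * A * U)) = (LinearMap.ker (mv k A)).comap (e : (ι → R) →ₗ[k] (ι → R)) := by
    ext v
    simp only [LinearMap.mem_ker, Submodule.mem_comap]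
    rw [mv_mul, mv_mul]
    constructor
    · intro h
      have := congrArg (mv k U) h
      rw [map_zero] at this
      rw [← this]
      have h2 := LinearMap.congr_fun hUU (mv k A (mv k U v))
      simp only [LinearMap.comp_apply, LinearMap.id_apply] at h2
      exact h2.symm
    · intro h
      have h3 : mv k A (mv k U v) = 0 := h
      rw [LinearMap.comp_apply, LinearMap.comp_apply, h3, map_zero]
  have h2 : (LinearMap.ker (mv k A)).comap (e : (ι → R) →ₗ[k] (ι → R)) =
      (LinearMap.ker (mv k A)).map (e.symm : (ι → R) →ₗ[k] (ι → R)) :=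
    (Submodule.map_equiv_eq_comap_symm e.symm (LinearMap.ker (mv k A))).symm
  rw [h1, h2]
  exact LinearEquiv.finrank_map_eq e.symm (LinearMap.ker (mv k A))

end Rank

end Pool.Agent.H212R4.Carlsson
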