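import Mathlib
import Pool.Agent.H212R4.CarlssonB

set_option autoImplicit false

namespace Pool.Agent.H212R4.Carlsson

open Matrix

section Base

variable {k R ι : Type*} [Field k] [CommRing R] [Algebra k R] [Module.Finite k R] [Fintype ι]
  [DecidableEq ι] [CharP R 2]

omit [Module.Finite k R] in
theorem E_zero_apply (v : ι × ι → R) (p : ι × ι) :
    mv k (E (0 : Matrix ι ι R)) v p = v p + v p.swap := by
  have h : T (0 : Matrix ι ι R) = 0 := by
    simp [T, Matrix.kronecker]
  have h1 : (E (0 : Matrix ι ι R)) = 1 + S R ι := by
    rw [E, h, zero_add]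
  rw [h1]
  simp only [mv, LinearMap.coe_restrictScalars, Matrix.mulVecLin_apply, Matrix.add_mulVec,
    Matrix.one_mulVec, Pi.add_apply]
  congr 1
  simp [Matrix.mulVec, dotProduct, S, Matrix.of_apply, ite_mul]

/-- the diagonal of a vector indexed by pairs. -/
def diag (k R ι : Type*) [Field k] [CommRing R] [Algebra k R] : (ι × ι → R) →ₗ[k] (ι → R) where
  toFun v := fun i => v (i, i)
  map_add' := by intro a b; rfl
  map_smul' := by intro c a; rfl

theorem base : Fintype.card ι * Module.finrank k R +
    Module.finrank k (LinearMap.range (mv k (E (0 : Matrix ι ι R)))) ≤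
    Module.finrank k (LinearMap.ker (mv k (E (0 : Matrix ι ι R)))) := by
  set K := LinearMap.ker (mv k (E (0 : Matrix ι ι R))) with hK
  let f : K →ₗ[k] (ι → R) := (diag k R ι).comp K.subtype
  have h1 := LinearMap.finrank_range_add_finrank_ker f
  have hsurj : LinearMap.range f = ⊤ := by
    rw [LinearMap.range_eq_top]
    intro w
    refine ⟨⟨fun p => if p.1 = p.2 then w p.1 else 0, ?_⟩, ?_⟩
    · rw [hK, LinearMap.mem_ker]
      funext p
      rw [E_zero_apply]
      by_cases hp : p.1 = p.2
      · simp [hp, CharTwo.add_self_eq_zero]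
      · have hp' : ¬ p.2 = p.1 := fun h => hp h.symm
        simp [hp, hp']
    · funext i
      simp [f, diag]
  have h2 : Module.finrank k (LinearMap.range f) = Fintype.card ι * Module.finrank k R := by
    rw [hsurj, finrank_top, Module.finrank_pi_fintype]
    simp
  have h3 : Module.finrank k (LinearMap.range (mv k (E (0 : Matrix ι ι R)))) ≤
      Module.finrank k (LinearMap.ker f) := by
    have h4 : Module.finrank k (LinearMap.ker f) =
        Module.finrank k ↥((LinearMap.ker f).map K.subtype) :=
      (LinearEquiv.finrank_eq
        (Submodule.equivMapOfInjective K.subtype K.injective_subtype (LinearMap.ker f)))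
    rw [h4]
    apply Submodule.finrank_mono
    rintro _ ⟨v, rfl⟩
    refine ⟨⟨mv k (E (0 : Matrix ι ι R)) v, ?_⟩, ?_, rfl⟩
    · rw [hK, LinearMap.mem_ker]
      funext p
      rw [E_zero_apply, E_zero_apply, E_zero_apply]
      simp only [Prod.swap_swap, Pi.zero_apply]
      rw [add_comm (v p.swap) (v p), CharTwo.add_self_eq_zero]
    · rw [SetLike.mem_coe, LinearMap.mem_ker]
      funext i
      show mv k (E (0 : Matrix ι ι R)) v (i, i) = 0
      rw [E_zero_apply]
      exact CharTwo.add_self_eq_zero _
  omega

/-- The main inequality in the abstract form: if `E D` is conjugate to `E 0` by a chain of the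
above conjugations, and `D` is homogeneous of degree `-1`. -/
theorem main_of_conj (D : Matrix ι ι R) (deg : ι → ℕ)
    (hdeg : ∀ i j, D i j ≠ 0 → deg j = deg i + 1)
    (hker : Module.finrank k (LinearMap.ker (mv k (E D))) =
      Module.finrank k (LinearMap.ker (mv k (E (0 : Matrix ι ι R))))) :
    Fintype.card ι * Module.finrank k R + Module.finrank k (LinearMap.range (mv k (T D))) ≤
      Module.finrank k (LinearMap.ker (mv k (T D))) := by
  have h1 := base (k := k) (R := R) (ι := ι)
  have h2 := LinearMap.finrank_range_add_finrank_ker (mv k (E (0 : Matrix ι ι R)))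
  have h3 := LinearMap.finrank_range_add_finrank_ker (mv k (T D))
  have h4 : Module.finrank k (LinearMap.ker (mv k (E D))) ≤
      Module.finrank k (LinearMap.ker (mv k (T D))) := by
    apply finrank_ker_le (T D) (1 + S R ι) (fun p => deg p.1 + deg p.2)
    · rintro ⟨a, b⟩ ⟨c, e⟩ h
      simp only [T, Matrix.add_apply, Matrix.kronecker, Matrix.kroneckerMap_apply] at h
      by_cases h5 : D a c * (1 : Matrix ι ι R) b e = 0
      · rw [h5, zero_add] at h
        have h6 : (1 : Matrix ι ι R) a c ≠ 0 := fun h7 => h (by rw [h7, zero_mul])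
        have h7 : D b e ≠ 0 := fun h7 => h (by rw [h7, mul_zero])
        have h8 : a = c := by
          by_contra h9
          exact h6 (Matrix.one_apply_ne h9)
        have h9 := hdeg _ _ h7
        subst h8
        simp only
        omega
      · have h6 : (1 : Matrix ι ι R) b e ≠ 0 := fun h7 => h5 (by rw [h7, mul_zero])
        have h7 : D a c ≠ 0 := fun h7 => h5 (by rw [h7, zero_mul])
        have h8 : b = e := by
          by_contra h9
          exact h6 (Matrix.one_apply_ne h9)
        have h9 := hdeg _ _ h7
        subst h8
        simp only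
        omega
    · rintro ⟨a, b⟩ ⟨c, e⟩ h
      simp only [S, Matrix.add_apply, Matrix.of_apply, Prod.swap_prod_mk] at h
      by_cases h5 : ((c, e) : ι × ι) = (b, a)
      · obtain ⟨rfl, rfl⟩ := Prod.mk.inj h5
        simp only
        omega
      · rw [if_neg h5, add_zero] at h
        have h6 : ((a, b) : ι × ι) = (c, e) := by
          by_contra h9
          exact h (Matrix.one_apply_ne h9)
        obtain ⟨rfl, rfl⟩ := Prod.mk.inj h6
        rfl
  omega

end Base

end Pool.Agent.H212R4.Carlsson
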