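import Mathlib
import Pool.Agent.H212R4.CarlssonC

set_option autoImplicit false

namespace Pool.Agent.H212R4.Carlsson

open Matrix MvPolynomial

section Quot

variable (k : Type*) [Field k] (d : ℕ)

/-- the ideal generated by the squares of the variables. -/
noncomputable def Isq : Ideal (MvPolynomial (Fin d) k) :=
  Ideal.span (Set.range (fun i : Fin d => (MvPolynomial.X i : MvPolynomial (Fin d) k) ^ 2))

/-- the truncated polynomial ring. -/
abbrev Rq : Type _ := MvPolynomial (Fin d) k ⧸ Isq k d

/-- the class of a variable. -/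
noncomputable def xq (i : Fin d) : Rq k d := Ideal.Quotient.mk _ (X i)

theorem xq_sq (i : Fin d) : xq k d i * xq k d i = 0 := by
  rw [xq, ← map_mul, ← pow_two, Ideal.Quotient.eq_zero_iff_mem]
  exact Ideal.subset_span ⟨i, rfl⟩

/-- the augmentation. -/
noncomputable def aug : Rq k d →+* k :=
  Ideal.Quotient.lift _ (MvPolynomial.constantCoeff) (by
    intro a ha
    have : Isq k d ≤ RingHom.ker (MvPolynomial.constantCoeff (R := k) (σ := Fin d)) := by
      rw [Isq, Ideal.span_le]
      rintro _ ⟨i, rfl⟩
      simp [RingHom.mem_ker]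
    exact this ha)

instance : Nontrivial (Rq k d) := (aug k d).domain_nontrivial

variable [CharP k 2]

instance : CharP (Rq k d) 2 := charP_of_injective_algebraMap (algebraMap k (Rq k d)).injective 2

theorem pderiv_mem (j : Fin d) (p : MvPolynomial (Fin d) k) (hp : p ∈ Isq k d) :
    pderiv j p ∈ Isq k d := by
  rw [Isq] at hp
  refine Submodule.span_induction (p := fun p _ => pderiv j p ∈ Isq k d) ?_ ?_ ?_ ?_ hp
  · rintro _ ⟨i, rfl⟩
    have : pderiv j ((X i : MvPolynomial (Fin d) k) ^ 2) = 0 := by
      rw [pow_two, Derivation.leibniz]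
      simp only [smul_eq_mul]
      exact CharTwo.add_self_eq_zero _
    rw [this]
    exact zero_mem _
  · rw [map_zero]
    exact zero_mem _
  · intro x y _ _ hx hy
    rw [map_add]
    exact add_mem hx hy
  · intro a x hx hx'
    rw [smul_eq_mul, Derivation.leibniz]
    simp only [smul_eq_mul]
    exact add_mem (Ideal.mul_mem_left _ _ hx') (Ideal.mul_mem_right _ _ hx)

/-- the partial derivative. -/
noncomputable def der (j : Fin d) (a : Rq k d) : Rq k d :=
  Ideal.Quotient.mk _ (pderiv j (Function.surjInv Ideal.Quotient.mk_surjective a))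

theorem der_mk (j : Fin d) (p : MvPolynomial (Fin d) k) :
    der k d j (Ideal.Quotient.mk _ p) = Ideal.Quotient.mk _ (pderiv j p) := by
  rw [der, Ideal.Quotient.eq, ← map_sub]
  apply pderiv_mem
  rw [← Ideal.Quotient.eq]
  exact Function.surjInv_eq Ideal.Quotient.mk_surjective _

theorem der_mul (j : Fin d) (a b : Rq k d) : der k d j (a * b) = a * der k d j b + b * der k d j a := by
  obtain ⟨p, rfl⟩ := Ideal.Quotient.mk_surjective a
  obtain ⟨q, rfl⟩ := Ideal.Quotient.mk_surjective b
  rw [← map_mul, der_mk, der_mk, der_mk, Derivation.leibniz, map_add]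
  simp only [smul_eq_mul, map_mul]

theorem der_add (j : Fin d) (a b : Rq k d) : der k d j (a + b) = der k d j a + der k d j b := by
  obtain ⟨p, rfl⟩ := Ideal.Quotient.mk_surjective a
  obtain ⟨q, rfl⟩ := Ideal.Quotient.mk_surjective b
  rw [← map_add, der_mk, der_mk, der_mk, map_add, map_add]

theorem der_zero (j : Fin d) : der k d j 0 = 0 := by
  have := der_add k d j 0 0
  rw [add_zero] at this
  exact left_eq_add.1 this

theorem der_algebraMap (j : Fin d) (c : k) :
    der k d j (Ideal.Quotient.mk _ (C c)) = 0 := by
  rw [der_mk, pderiv_C, map_zero]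

theorem der_one (j : Fin d) : der k d j 1 = 0 := by
  have := der_algebraMap k d j 1
  simpa using this

theorem der_x (i j : Fin d) : der k d j (xq k d i) = if i = j then 1 else 0 := by
  rw [xq, der_mk, pderiv_X]
  by_cases h : i = j
  · subst h
    simp
  · simp [h, Pi.single_apply]

theorem der_sum {α : Type*} (j : Fin d) (s : Finset α) (f : α → Rq k d) :
    der k d j (∑ a ∈ s, f a) = ∑ a ∈ s, der k d j (f a) := by
  classical
  induction s using Finset.induction_on with
  | empty => simp [der_zero]
  | insert a s ha ih => rw [Finset.sum_insert ha, Finset.sum_insert ha, der_add, ih]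

/-- the substitution `x_j = 0`. -/
noncomputable def sig (j : Fin d) : Rq k d →+* Rq k d where
  toFun a := a + xq k d j * der k d j a
  map_one' := by rw [der_one]; simp
  map_mul' := by
    intro a b
    rw [der_mul]
    have := xq_sq k d j
    linear_combination (-(der k d j a * der k d j b)) * this
  map_zero' := by rw [der_zero]; simp
  map_add' := by
    intro a b
    rw [der_add]
    ring

theorem sig_apply (j : Fin d) (a : Rq k d) : sig k d j a = a + xq k d j * der k d j a := rfl

/-- the composition of substitutions. -/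
noncomputable def Sig : List (Fin d) → (Rq k d →+* Rq k d)
  | [] => RingHom.id _
  | j :: l => (sig k d j).comp (Sig l)

theorem Sig_x (l : List (Fin d)) (i : Fin d) :
    Sig k d l (xq k d i) = if i ∈ l then 0 else xq k d i := by
  induction l with
  | nil => simp [Sig]
  | cons j l ih =>
    rw [Sig, RingHom.comp_apply, ih]
    by_cases h : i ∈ l
    · simp [h]
    · rw [if_neg h, sig_apply, der_x]
      by_cases hij : i = j
      · subst hij
        simp [CharTwo.add_self_eq_zero]
      · simp [hij, h]

theorem Sig_C (l : List (Fin d)) (c : k) :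
    Sig k d l (Ideal.Quotient.mk _ (C c)) = Ideal.Quotient.mk _ (C c) := by
  induction l with
  | nil => simp [Sig]
  | cons j l ih =>
    rw [Sig, RingHom.comp_apply, ih, sig_apply, der_algebraMap]
    simp

theorem Sig_all (l : List (Fin d)) (hl : ∀ i, i ∈ l) (a : Rq k d) :
    Sig k d l a = algebraMap k (Rq k d) (aug k d a) := by
  have : Sig k d l = (algebraMap k (Rq k d)).comp (aug k d) := by
    apply Ideal.Quotient.ringHom_ext
    apply MvPolynomial.ringHom_ext
    · intro r
      simp only [RingHom.comp_apply]
      rw [Sig_C]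
      have : aug k d (Ideal.Quotient.mk _ (C r)) = r := by
        show MvPolynomial.constantCoeff (C r) = r
        simp
      rw [this]
      rfl
    · intro i
      simp only [RingHom.comp_apply]
      have := Sig_x k d l i
      rw [if_pos (hl i), xq] at this
      rw [this]
      have h2 : aug k d (Ideal.Quotient.mk _ (X i)) = 0 := by
        show MvPolynomial.constantCoeff (X i) = 0
        simp
      rw [h2, map_zero]
  exact RingHom.congr_fun this a

theorem Sig_nilp (l : List (Fin d)) (hl : ∀ i, i ∈ l) (a : Rq k d) (ha : IsNilpotent a) :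
    Sig k d l a = 0 := by
  rw [Sig_all k d l hl]
  have : IsNilpotent (aug k d a) := ha.map (aug k d)
  rw [this.eq_zero, map_zero]

variable {k d}
variable {ι : Type*} [Fintype ι] [DecidableEq ι]

theorem der_anti (j : Fin d) (D : Matrix ι ι (Rq k d)) (h : D * D = 0) :
    D * D.map (der k d j) + D.map (der k d j) * D = 0 := by
  ext p q
  have h1 := congrArg (der k d j) (congrFun (congrFun h p) q)
  rw [Matrix.mul_apply, der_sum, Matrix.zero_apply, der_zero] at h1
  simp only [der_mul] at h1
  rw [Matrix.add_apply, Matrix.mul_apply, Matrix.mul_apply, ← Finset.sum_add_distrib,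
    Matrix.zero_apply, ← h1]
  apply Finset.sum_congr rfl
  intro r _
  simp only [Matrix.map_apply]
  ring

variable [Module.Finite k (Rq k d)]

theorem chain (D : Matrix ι ι (Rq k d)) (hD : D * D = 0) (l : List (Fin d)) :
    (D.map (Sig k d l)) * (D.map (Sig k d l)) = 0 ∧
    Module.finrank k (LinearMap.ker (mv k (E (D.map (Sig k d l))))) =
      Module.finrank k (LinearMap.ker (mv k (E D))) := by
  induction l with
  | nil =>
    have : D.map (Sig k d []) = D := by
      ext p q
      simp [Sig]
    rw [this]
    exact ⟨hD, rfl⟩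
  | cons j l ih =>
    obtain ⟨ih1, ih2⟩ := ih
    set D' := D.map (Sig k d l) with hD'
    have h1 : D.map (Sig k d (j :: l)) = D' + xq k d j • D'.map (der k d j) := by
      ext p q
      simp [Sig, sig_apply, hD']
    have h2 := der_anti j D' ih1
    rw [h1]
    refine ⟨sq_zero D' _ _ (xq_sq k d j) h2 ih1, ?_⟩
    rw [← conj D' _ _ (xq_sq k d j) h2, ← ih2]
    exact finrank_ker_conj _ _ (U_sq _ _ (xq_sq k d j))

theorem ineq (D : Matrix ι ι (Rq k d)) (hD : D * D = 0) (deg : ι → ℕ)
    (hdeg : ∀ i j, D i j ≠ 0 → deg j = deg i + 1) (hnil : ∀ i j, IsNilpotent (D i j)) :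
    Fintype.card ι * Module.finrank k (Rq k d) + Module.finrank k (LinearMap.range (mv k (T D))) ≤
      Module.finrank k (LinearMap.ker (mv k (T D))) := by
  apply main_of_conj D deg hdeg
  have h := (chain D hD (List.finRange d)).2
  rw [← h]
  have h1 : D.map (Sig k d (List.finRange d)) = 0 := by
    ext p q
    simp only [Matrix.map_apply, Matrix.zero_apply]
    exact Sig_nilp k d _ (fun i => List.mem_finRange i) _ (hnil p q)
  rw [h1]

end Quot

end Pool.Agent.H212R4.Carlsson
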