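import Mathlib
import Pool.Agent.H212R4.CarlssonD

set_option autoImplicit false

namespace Pool.Agent.H212R4.Carlsson

open MvPolynomial

variable (k : Type*) [Field k] (d : ℕ)

/-- the exponent vector of a squarefree monomial. -/
noncomputable def ex (s : Finset (Fin d)) : Fin d →₀ ℕ :=
  Finsupp.equivFunOnFinite.symm (fun i => if i ∈ s then 1 else 0)

theorem ex_apply (s : Finset (Fin d)) (i : Fin d) : ex d s i = if i ∈ s then 1 else 0 := rfl

theorem ex_inj {s t : Finset (Fin d)} (h : ex d s = ex d t) : s = t := by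
  ext i
  have h1 := DFunLike.congr_fun h i
  rw [ex_apply, ex_apply] at h1
  by_cases h2 : i ∈ s <;> by_cases h3 : i ∈ t <;> simp_all

theorem coeff_mem (s : Finset (Fin d)) (p : MvPolynomial (Fin d) k) (hp : p ∈ Isq k d) :
    coeff (ex d s) p = 0 := by
  rw [Isq] at hp
  refine Submodule.span_induction (p := fun p _ => ∀ m : Fin d →₀ ℕ, (∀ i, m i ≤ 1) → coeff m p = 0)
    ?_ ?_ ?_ ?_ hp (ex d s) ?_
  · rintro _ ⟨i, rfl⟩ m hm
    show coeff m (X i ^ 2) = 0
    rw [MvPolynomial.X_pow_eq_monomial, coeff_monomial, if_neg]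
    rintro rfl
    have := hm i
    simp at this
  · intro m _
    simp
  · intro x y _ _ hx hy m hm
    rw [coeff_add, hx m hm, hy m hm, add_zero]
  · intro a x _ hx m hm
    rw [smul_eq_mul, coeff_mul]
    apply Finset.sum_eq_zero
    rintro ⟨u, v⟩ huv
    rw [Finset.HasAntidiagonal.mem_antidiagonal] at huv
    have : ∀ i, v i ≤ 1 := by
      intro i
      have h1 := hm i
      have h2 := DFunLike.congr_fun huv i
      simp only [Finsupp.coe_add, Pi.add_apply] at h2
      omega
    simp only
    rw [hx v this, mul_zero]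
  · intro i
    rw [ex_apply]
    split_ifs <;> simp

/-- the linear map from coefficient vectors. -/
noncomputable def L : (Finset (Fin d) → k) →ₗ[k] Rq k d where
  toFun f := ∑ s, f s • (Ideal.Quotient.mk (Isq k d) (monomial (ex d s) 1))
  map_add' := by
    intro f g
    simp only [Pi.add_apply, add_smul, Finset.sum_add_distrib]
  map_smul' := by
    intro c f
    simp only [Pi.smul_apply, smul_eq_mul, mul_smul, Finset.smul_sum, RingHom.id_apply]

theorem L_apply (f : Finset (Fin d) → k) :
    L k d f = Ideal.Quotient.mk (Isq k d) (∑ s, monomial (ex d s) (f s)) := by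
  rw [map_sum]
  show ∑ s, f s • (Ideal.Quotient.mk (Isq k d) (monomial (ex d s) 1)) = _
  apply Finset.sum_congr rfl
  intro s _
  have : monomial (ex d s) (f s) = f s • monomial (ex d s) (1 : k) := by
    rw [smul_monomial, smul_eq_mul, mul_one]
  rw [this]
  rfl

theorem L_inj : Function.Injective (L k d) := by
  rw [← LinearMap.ker_eq_bot, eq_bot_iff]
  intro f hf
  rw [LinearMap.mem_ker, L_apply, Ideal.Quotient.eq_zero_iff_mem] at hf
  rw [Submodule.mem_bot]
  funext t
  have h := coeff_mem k d t _ hf
  rw [coeff_sum] at h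
  rw [Finset.sum_eq_single t] at h
  · rw [coeff_monomial, if_pos rfl] at h
    exact h
  · intro b _ hb
    rw [coeff_monomial, if_neg]
    intro h'
    exact hb (ex_inj d h')
  · simp

theorem mk_monomial_mem (m : Fin d →₀ ℕ) (c : k) :
    Ideal.Quotient.mk (Isq k d) (monomial m c) ∈ LinearMap.range (L k d) := by
  by_cases h : ∀ i, m i ≤ 1
  · set s : Finset (Fin d) := Finset.univ.filter (fun i => m i = 1) with hs
    have hm : m = ex d s := by
      ext i
      rw [ex_apply]
      have := h i
      by_cases h1 : m i = 1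
      · simp [hs, h1]
      · have h2 : i ∉ s := by simp [hs, h1]
        rw [if_neg h2]
        omega
    refine ⟨fun t => if t = s then c else 0, ?_⟩
    rw [L_apply]
    congr 1
    rw [Finset.sum_eq_single s]
    · rw [if_pos rfl, ← hm]
    · intro b _ hb
      rw [if_neg hb, map_zero]
    · simp
  · push Not at h
    obtain ⟨i, hi⟩ := h
    have : monomial m c ∈ Isq k d := by
      have h1 : monomial m c = monomial (m - Finsupp.single i 2) c * X i ^ 2 := by
        rw [X_pow_eq_monomial, monomial_mul, mul_one]
        have h2 : m = m - Finsupp.single i 2 + Finsupp.single i 2 := by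
          ext j
          rw [Finsupp.add_apply, Finsupp.tsub_apply]
          by_cases hj : j = i
          · subst hj
            rw [Finsupp.single_eq_same]
            omega
          · rw [Finsupp.single_eq_of_ne hj]
            omega
        rw [← h2]
      rw [h1]
      exact Ideal.mul_mem_left _ _ (Ideal.subset_span ⟨i, rfl⟩)
    rw [Ideal.Quotient.eq_zero_iff_mem.2 this]
    exact zero_mem _

theorem L_surj : Function.Surjective (L k d) := by
  rw [← LinearMap.range_eq_top, eq_top_iff]
  intro a _
  obtain ⟨p, rfl⟩ := Ideal.Quotient.mk_surjective a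
  rw [p.as_sum, map_sum]
  exact sum_mem (fun m _ => mk_monomial_mem k d m _)

instance : Module.Finite k (Rq k d) := Module.Finite.of_surjective (L k d) (L_surj k d)

theorem finrank_Rq : Module.finrank k (Rq k d) = 2 ^ d := by
  rw [← LinearEquiv.finrank_eq (LinearEquiv.ofBijective (L k d) ⟨L_inj k d, L_surj k d⟩)]
  rw [Module.finrank_pi]
  simp

theorem final [CharP k 2] (n : ℕ) (D : Matrix (Fin n) (Fin n) (Rq k d)) (hD : D * D = 0)
    (hdeg : ∃ deg : Fin n → ℕ, ∀ i j, D i j ≠ 0 → deg j = deg i + 1)
    (hnil : ∀ i j, IsNilpotent (D i j)) :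
    2 ^ d * n + Module.finrank k (LinearMap.range (mv k (T D))) ≤
      Module.finrank k (LinearMap.ker (mv k (T D))) := by
  obtain ⟨deg, hdeg⟩ := hdeg
  have h := ineq D hD deg hdeg hnil
  rw [finrank_Rq, Fintype.card_fin, mul_comm] at h
  exact h

end Pool.Agent.H212R4.Carlsson
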