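import Mathlib
import Pool.Agent.Results.MP_279ba3_co.ColoringNumberStep

set_option autoImplicit false

open Cardinal Order Set

universe u

namespace Pool.Agent.H212R4.IndCol

open Pool.Agent.Results.MP_279ba3_co.ColoringNumberStep

variable {V : Type u}

/-- no obstacle over `Y` inside `U` -/
def Closed (G : SimpleGraph V) (s : ℕ) (U Y : Set V) : Prop := ∀ Z ⊆ U \ Y, ¬ Obst G Y Z s

theorem obst_trans {G : SimpleGraph V} {s : ℕ} {X Y Z : Set V} (hXY : X ⊆ Y) (h : Obst G X Z s)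
    (hne : (Z \ Y).Nonempty) : Obst G Y (Z \ Y) s := by
  refine ⟨hne, h.2.1.sdiff, fun z hz => (h.2.2 z hz.1).trans (Set.encard_le_encard ?_)⟩
  rintro w ⟨hw, hw2⟩
  refine ⟨hw, ?_⟩
  by_cases hwY : w ∈ Y
  · exact Or.inl hwY
  · rcases hw2 with h2 | h2
    · exact absurd (hXY h2) hwY
    · exact Or.inr ⟨h2, hwY⟩

/-- `X` lies in every closed set containing `S` -/
def Reach (G : SimpleGraph V) (s : ℕ) (S X : Set V) : Prop :=
  ∀ U Y : Set V, X ⊆ U → S ⊆ Y → Closed G s U Y → X ⊆ Y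

theorem Reach.step {G : SimpleGraph V} {s : ℕ} {S X Z : Set V} (h : Reach G s S X)
    (hO : Obst G X Z s) : Reach G s S (X ∪ Z) := by
  intro U Y hU hS hC
  have h1 : X ⊆ Y := h U Y (subset_union_left.trans hU) hS hC
  refine union_subset h1 ?_
  by_contra hcon
  have hne : (Z \ Y).Nonempty := by
    rw [Set.not_subset] at hcon
    obtain ⟨z, hz, hzY⟩ := hcon
    exact ⟨z, hz, hzY⟩
  exact hC (Z \ Y) (fun z hz => ⟨hU (Or.inr hz.1), hz.2⟩) (obst_trans h1 hO hne)

/-- the closure of `S` outside `R` is infinite -/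
def Gd (G : SimpleGraph V) (s : ℕ) (S R : Set V) : Prop :=
  ∀ Y : Set V, Y.Finite → S ⊆ Y → ¬ Closed G s Rᶜ Y

/-- the vertices with too many neighbours in `X` -/
def DD (G : SimpleGraph V) (s : ℕ) (X : Set V) : Set V :=
  {d | d ∉ X ∧ ((s + 1 + 1 : ℕ) : ℕ∞) ≤ {w | G.Adj d w ∧ w ∈ X}.encard}

theorem min_obst {G : SimpleGraph V} {s : ℕ} {X : Set V} : ∀ k : ℕ, ∀ Z : Set V,
    Z.ncard = k → Disjoint X Z → Obst G X Z s →
    (∀ Z' ⊆ Z, Obst G X Z' s → ∃ Z'' ⊆ Z', Obst G X Z'' (s + 1)) → ∃ d ∈ Z, d ∈ DD G s X := by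
  intro k
  induction k using Nat.strong_induction_on with
  | _ k ih =>
    intro Z hk hXZ hO hall
    by_cases hmin : ∃ Z' ⊂ Z, Obst G X Z' s
    · obtain ⟨Z', hZ', hO'⟩ := hmin
      obtain ⟨d, hd, hdD⟩ := ih Z'.ncard (hk ▸ Set.ncard_lt_ncard hZ' hO.2.1) Z' rfl
        (hXZ.mono_right hZ'.subset) hO' (fun Z1 h1 h2 => hall Z1 (h1.trans hZ'.subset) h2)
      exact ⟨d, hZ'.subset hd, hdD⟩
    · push Not at hmin
      obtain ⟨Z'', hZ'', hO''⟩ := hall Z subset_rfl hO
      have hO3 : Obst G X Z'' s := ⟨hO''.1, hO''.2.1, fun z hz => by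
        refine le_trans ?_ (hO''.2.2 z hz)
        exact_mod_cast (by omega : s + 1 ≤ s + 1 + 1)⟩
      have hEq : Z'' = Z := by
        by_contra hne
        exact hmin Z'' (hZ''.ssubset_of_ne hne) hO3
      subst hEq
      obtain ⟨d, hd⟩ := hO''.1
      have hsing : Z'' = {d} := by
        by_contra hne
        have hne2 : (Z'' \ {d}).Nonempty := by
          by_contra hcon
          rw [Set.not_nonempty_iff_eq_empty, Set.sdiff_eq_empty] at hcon
          exact hne (Set.Subset.antisymm hcon (by simpa using hd))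
        apply hmin (Z'' \ {d}) ⟨Set.sdiff_subset, fun h => (h hd).2 rfl⟩
        refine ⟨hne2, hO''.2.1.sdiff, fun z hz => ?_⟩
        have h1 := hO''.2.2 z hz.1
        have h2 : {w | G.Adj z w ∧ (w ∈ X ∨ w ∈ Z'')} \ {d} ⊆
            {w | G.Adj z w ∧ (w ∈ X ∨ w ∈ Z'' \ {d})} := by
          rintro w ⟨⟨hw1, hw2⟩, hw3⟩
          exact ⟨hw1, hw2.imp id fun h => ⟨h, hw3⟩⟩
        have h3 := Set.encard_tsub_one_le_encard_sdiff_singleton
          {w | G.Adj z w ∧ (w ∈ X ∨ w ∈ Z'')} d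
        have h4 := h3.trans (Set.encard_le_encard h2)
        refine le_trans ?_ h4
        have h5 : ((s + 1 : ℕ) : ℕ∞) = ((s + 1 + 1 : ℕ) : ℕ∞) - 1 := by
          norm_cast
        rw [h5]
        exact tsub_le_tsub_right h1 1
      refine ⟨d, hd, Set.disjoint_right.1 hXZ hd, ?_⟩
      refine (hO''.2.2 d hd).trans (Set.encard_le_encard ?_)
      rintro w ⟨hw, hw2⟩
      refine ⟨hw, ?_⟩
      rcases hw2 with h | h
      · exact h
      · rw [hsing] at h
        exact absurd h (fun h => hw.ne (by simpa using h.symm))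

theorem step {G : SimpleGraph V} {s : ℕ} {S X R : Set V} (hSX : S ⊆ X) (hX : X.Finite)
    (hXR : Disjoint X R) (hR : Gd G s S R) (hD : (DD G s X).Finite) :
    ∃ Z R' : Set V, Obst G X Z s ∧ Disjoint X Z ∧ R ⊆ R' ∧ Disjoint (X ∪ Z) R' ∧ Gd G s S R' ∧
      ((∀ Z' ⊆ Z, ¬ Obst G X Z' (s + 1)) ∨ ∃ d, Z = {d} ∧ ¬ Gd G s S (insert d R')) := by
  by_cases h1 : ∃ Z ⊆ Rᶜ \ X, Obst G X Z s ∧ ∀ Z' ⊆ Z, ¬ Obst G X Z' (s + 1)
  · obtain ⟨Z, hZ, hO, hex⟩ := h1
    refine ⟨Z, R, hO, ?_, subset_rfl, ?_, hR, Or.inl hex⟩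
    · exact Set.disjoint_right.2 fun z hz => (hZ hz).2
    · rw [Set.disjoint_union_left]
      exact ⟨hXR, Set.disjoint_left.2 fun z hz => (hZ hz).1⟩
  · push Not at h1
    have hclosed : Closed G s (R ∪ DD G s X)ᶜ X := by
      intro Z hZ hO
      obtain ⟨d, hd, hdD⟩ := min_obst Z.ncard Z rfl
        (Set.disjoint_right.2 fun z hz => (hZ hz).2) hO (fun Z' hZ' hO' => by
          apply h1 Z' ?_ hO'
          intro z hz
          exact ⟨fun h => (hZ (hZ' hz)).1 (Or.inl h), (hZ (hZ' hz)).2⟩)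
      exact (hZ hd).1 (Or.inr hdD)
    have hbad : ¬ Gd G s S (R ∪ DD G s X) := fun h => h X hX hSX hclosed
    -- maximal good
    have hfin : {T : Set V | T ⊆ DD G s X ∧ Gd G s S (R ∪ T)}.Finite :=
      hD.finite_subsets.subset fun T hT => hT.1
    obtain ⟨T, hT⟩ := hfin.exists_maximal ⟨∅, Set.empty_subset _, by simpa using hR⟩
    have hTne : ∃ d ∈ DD G s X, d ∉ T := by
      by_contra hcon
      push Not at hcon
      have : T = DD G s X := Set.Subset.antisymm hT.prop.1 hcon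
      exact hbad (this ▸ hT.prop.2)
    obtain ⟨d, hdD, hdT⟩ := hTne
    have hbad2 : ¬ Gd G s S (insert d (R ∪ T)) := by
      intro h
      have h2 : insert d T ∈ {T : Set V | T ⊆ DD G s X ∧ Gd G s S (R ∪ T)} := by
        refine ⟨Set.insert_subset hdD hT.prop.1, ?_⟩
        rwa [Set.union_insert]
      have h3 := hT.le_of_ge h2 (Set.subset_insert _ _)
      exact hdT (h3 (Set.mem_insert _ _))
    have hdR : d ∉ R := by
      intro h
      apply hbad2
      rw [Set.insert_eq_of_mem (show d ∈ R ∪ T from Or.inl h)]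
      exact hT.prop.2
    refine ⟨{d}, R ∪ T, ?_, ?_, Set.subset_union_left, ?_, hT.prop.2, Or.inr ⟨d, rfl, hbad2⟩⟩
    · refine ⟨Set.singleton_nonempty d, Set.finite_singleton d, ?_⟩
      rintro z rfl
      refine le_trans ?_ (hdD.2.trans (Set.encard_le_encard ?_))
      · exact_mod_cast (by omega : s + 1 ≤ s + 1 + 1)
      · rintro w ⟨hw, hw2⟩
        exact ⟨hw, Or.inl hw2⟩
    · exact Set.disjoint_singleton_right.2 hdD.1
    · rw [Set.disjoint_union_left, Set.disjoint_union_right]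
      refine ⟨⟨hXR, Set.disjoint_left.2 fun x hx hxT => (hT.prop.1 hxT).1 hx⟩, ?_⟩
      rw [Set.disjoint_singleton_left]
      rintro (h | h)
      · exact hdR h
      · exact hdT h

theorem dd_finite {G : SimpleGraph V} {s : ℕ} {X : Set V} (hX : X.Finite)
    (hf : ∀ F : Set V, F.Finite → Free G ∅ F s) : (DD G s X).Finite := by
  classical
  by_contra hinf
  have hinf : (DD G s X).Infinite := hinf
  obtain ⟨D, hDs, hDc⟩ := hinf.exists_subset_card_eq (s * X.ncard + 1)
  obtain ⟨ρ, hρ, h⟩ := hf (X ∪ (D : Set V)) (hX.union D.finite_toSet)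
  -- the vertices of `D` that are smaller than a neighbour in `X`
  have hex : ∃ d ∈ D, ∀ x ∈ X, G.Adj d x → ¬ ρ d < ρ x := by
    by_contra hcon
    push Not at hcon
    choose! f hf1 hf2 hf3 using hcon
    have hmaps : ∀ d ∈ D, f d ∈ hX.toFinset := fun d hd => by simpa using hf1 d hd
    have hcard : hX.toFinset.card * s < D.card := by
      rw [hDc, Set.ncard_eq_toFinset_card X hX, mul_comm]
      omega
    obtain ⟨x, hx, hlt⟩ := Finset.exists_lt_card_fiber_of_mul_lt_card_of_maps_to hmaps hcard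
    have hxX : x ∈ X := by simpa using hx
    have h1 := h x (Or.inl hxX)
    have h2 : (((D.filter (fun d => f d = x)) : Finset V) : Set V) ⊆
        {w | G.Adj x w ∧ (w ∈ (∅ : Set V) ∨ (w ∈ X ∪ (D : Set V) ∧ ρ w < ρ x))} := by
      intro d hd
      simp only [Finset.coe_filter, Set.mem_ofPred_eq] at hd
      obtain ⟨hd1, hd2⟩ := hd
      have h3 := hf2 d hd1
      have h4 := hf3 d hd1
      rw [hd2] at h3 h4
      exact ⟨h3.symm, Or.inr ⟨Or.inr hd1, h4⟩⟩
    have h3 := (Set.encard_le_encard h2).trans h1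
    rw [Set.encard_coe_eq_coe_finsetCard] at h3
    have h4 : (D.filter (fun d => f d = x)).card ≤ s := by exact_mod_cast h3
    omega
  obtain ⟨d, hd, hd2⟩ := hex
  have h1 := h d (Or.inr hd)
  have hdD := hDs hd
  have h2 : {w | G.Adj d w ∧ w ∈ X} ⊆
      {w | G.Adj d w ∧ (w ∈ (∅ : Set V) ∨ (w ∈ X ∪ (D : Set V) ∧ ρ w < ρ d))} := by
    rintro w ⟨hw, hw2⟩
    refine ⟨hw, Or.inr ⟨Or.inl hw2, ?_⟩⟩
    rcases lt_trichotomy (ρ w) (ρ d) with h3 | h3 | h3
    · exact h3
    · exact absurd (hρ h3) hw.ne'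
    · exact absurd h3 (hd2 w hw2 hw)
  have h3 := hdD.2.trans ((Set.encard_le_encard h2).trans h1)
  have h4 : s + 1 + 1 ≤ s := by exact_mod_cast h3
  omega

theorem obst_ncard {G : SimpleGraph V} {s : ℕ} {X Z : Set V} (h : Obst G X Z s) : Z.Nonempty := h.1

/-- the main construction -/
theorem chain {G : SimpleGraph V} {s : ℕ} {S : Set V} (hS : S.Finite)
    (hf : ∀ F : Set V, F.Finite → Free G ∅ F s) (hG : Gd G s S ∅) :
    ∃ X R : ℕ → Set V, X 0 = S ∧ (∀ i, (X i).Finite ∧ S ⊆ X i ∧ Disjoint (X i) (R i) ∧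
      Reach G s S (X i)) ∧ (∀ i, X i ⊆ X (i + 1) ∧ R i ⊆ R (i + 1) ∧ (X (i + 1) \ X i).Nonempty ∧
        ((∀ Z' ⊆ X (i + 1) \ X i, ¬ Obst G (X i) Z' (s + 1)) ∨
          ∃ d, d ∉ X i ∧ X (i + 1) = insert d (X i) ∧ ¬ Gd G s S (insert d (R (i + 1))))) := by
  classical
  let St := {p : Set V × Set V // p.1.Finite ∧ S ⊆ p.1 ∧ Disjoint p.1 p.2 ∧ Reach G s S p.1 ∧
    Gd G s S p.2}
  have hstep : ∀ p : St, ∃ q : St, p.1.1 ⊆ q.1.1 ∧ p.1.2 ⊆ q.1.2 ∧ (q.1.1 \ p.1.1).Nonempty ∧
      ((∀ Z' ⊆ q.1.1 \ p.1.1, ¬ Obst G p.1.1 Z' (s + 1)) ∨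
        ∃ d, d ∉ p.1.1 ∧ q.1.1 = insert d p.1.1 ∧ ¬ Gd G s S (insert d q.1.2)) := by
    rintro ⟨⟨X, R⟩, hX, hSX, hXR, hre, hgd⟩
    obtain ⟨Z, R', hO, hXZ, hRR, hdis, hg, hor⟩ := step hSX hX hXR hgd (dd_finite hX hf)
    refine ⟨⟨⟨X ∪ Z, R'⟩, hX.union hO.2.1, hSX.trans Set.subset_union_left, hdis, hre.step hO, hg⟩,
      Set.subset_union_left, hRR, ?_, ?_⟩
    · have : (X ∪ Z) \ X = Z := by
        rw [Set.union_sdiff_left, sdiff_eq_left]
        exact hXZ.symm
      change ((X ∪ Z) \ X).Nonempty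
      rw [this]
      exact hO.1
    · have hE : (X ∪ Z) \ X = Z := by
        rw [Set.union_sdiff_left, sdiff_eq_left]
        exact hXZ.symm
      change (∀ Z' ⊆ (X ∪ Z) \ X, ¬ Obst G X Z' (s + 1)) ∨
        ∃ d, d ∉ X ∧ X ∪ Z = insert d X ∧ ¬ Gd G s S (insert d R')
      rw [hE]
      refine hor.imp id ?_
      rintro ⟨d, rfl, hd⟩
      exact ⟨d, Set.disjoint_singleton_right.1 hXZ, Set.union_singleton, hd⟩
  choose nx h1 h2 h3 h4 using hstep
  let p0 : St := ⟨⟨S, ∅⟩, hS, subset_rfl, disjoint_bot_right, fun _ _ _ h _ => h, hG⟩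
  let q : ℕ → St := fun n => Nat.rec p0 (fun _ p => nx p) n
  exact ⟨fun n => (q n).1.1, fun n => (q n).1.2, rfl,
    fun i => ⟨(q i).2.1, (q i).2.2.1, (q i).2.2.2.1, (q i).2.2.2.2.1⟩,
    fun i => ⟨h1 (q i), h2 (q i), h3 (q i), h4 (q i)⟩⟩

theorem exact_set [Countable V] {G : SimpleGraph V} {s : ℕ} {S : Set V} (hS : S.Finite)
    (hf : ∀ F : Set V, F.Finite → Free G ∅ F s) (hG : Gd G s S ∅) :
    ∃ W : Set V, Free G ∅ W (s + 1) ∧ ¬ Free G ∅ W s := by
  classical
  obtain ⟨X, R, hX0, hX, hst⟩ := chain hS hf hG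
  have hmono : Monotone X := monotone_nat_of_le_succ fun i => (hst i).1
  have hmonoR : Monotone R := monotone_nat_of_le_succ fun i => (hst i).2.1
  have hdis : ∀ i j, Disjoint (X i) (R j) := by
    intro i j
    exact ((hX (max i j)).2.2.1.mono_left (hmono (le_max_left _ _))).mono_right
      (hmonoR (le_max_right _ _))
  let W : Set V := ⋃ i, X i
  have hXW : ∀ i, X i ⊆ W := fun i => Set.subset_iUnion X i
  have hfinW : ∀ F : Set V, F.Finite → F ⊆ W → ∃ i, F ⊆ X i := by
    intro F hF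
    induction F, hF using Set.Finite.induction_on with
    | empty => intro _; exact ⟨0, Set.empty_subset _⟩
    | insert _ _ ih =>
      intro h
      obtain ⟨i, hi⟩ := ih ((Set.subset_insert _ _).trans h)
      obtain ⟨j, hj⟩ := Set.mem_iUnion.1 (h (Set.mem_insert _ _))
      exact ⟨max i j, Set.insert_subset (hmono (le_max_right _ _) hj)
        (hi.trans (hmono (le_max_left _ _)))⟩
  refine ⟨W, ?_, ?_⟩
  · refine countable_free (Set.to_countable W) ?_ ?_
    · intro F hFW hF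
      obtain ⟨i, hi⟩ := hfinW F hF hFW
      by_cases hb : ∃ j, i ≤ j ∧ ∃ d, d ∉ X j ∧ X (j + 1) = insert d (X j) ∧
          ¬ Gd G s S (insert d (R (j + 1)))
      · obtain ⟨j, hij, d, hdX, hXd, hbad⟩ := hb
        unfold Gd at hbad
        push Not at hbad
        obtain ⟨Y, hYf, hSY, hYc⟩ := hbad
        have hXY : X j ⊆ Y := by
          refine (hX j).2.2.2 _ Y ?_ hSY hYc
          intro x hx
          rintro (h | h)
          · exact hdX (h ▸ hx)
          · exact Set.disjoint_left.1 (hdis j (j + 1)) hx h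
        refine ⟨insert d Y ∩ W, ?_, Set.inter_subset_right, (hYf.insert d).inter_of_left _, ?_⟩
        · exact fun x hx => ⟨Or.inr (hXY (hmono hij (hi hx))), hFW hx⟩
        · intro Z hZ hO
          rw [Set.empty_union] at hO
          have hZd : ∀ z ∈ Z, z ≠ d ∧ z ∉ Y := by
            intro z hz
            have := (hZ hz).2
            constructor
            · rintro rfl; exact this ⟨Or.inl rfl, (hZ hz).1⟩
            · intro h; exact this ⟨Or.inr h, (hZ hz).1⟩
          apply hYc Z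
          · intro z hz
            refine ⟨?_, (hZd z hz).2⟩
            rintro (h | h)
            · exact (hZd z hz).1 h
            · obtain ⟨k, hk⟩ := Set.mem_iUnion.1 (hZ hz).1
              exact Set.disjoint_left.1 (hdis k (j + 1)) hk h
          · refine ⟨hO.1, hO.2.1, fun z hz => ?_⟩
            have h1 := hO.2.2 z hz
            have h2 : {w | G.Adj z w ∧ (w ∈ insert d Y ∩ W ∨ w ∈ Z)} \ {d} ⊆
                {w | G.Adj z w ∧ (w ∈ Y ∨ w ∈ Z)} := by
              rintro w ⟨⟨hw1, hw2⟩, hw3⟩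
              refine ⟨hw1, hw2.imp (fun h => ?_) id⟩
              rcases h.1 with h | h
              · exact absurd h hw3
              · exact h
            have h3 := Set.encard_tsub_one_le_encard_sdiff_singleton
              {w | G.Adj z w ∧ (w ∈ insert d Y ∩ W ∨ w ∈ Z)} d
            refine le_trans ?_ (h3.trans (Set.encard_le_encard h2))
            have h5 : ((s + 1 : ℕ) : ℕ∞) = ((s + 1 + 1 : ℕ) : ℕ∞) - 1 := by
              norm_cast
            rw [h5]
            exact tsub_le_tsub_right h1 1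
      · push Not at hb
        refine ⟨X i, hi, hXW i, (hX i).1, ?_⟩
        intro Z hZ hO
        rw [Set.empty_union] at hO
        obtain ⟨k, hk⟩ := hfinW Z hO.2.1 (fun z hz => (hZ hz).1)
        have hex : ∃ j, Z ⊆ X j := ⟨k, hk⟩
        let j := Nat.find hex
        have hj : Z ⊆ X j := Nat.find_spec hex
        have hij : i < j := by
          by_contra hcon
          obtain ⟨z, hz⟩ := hO.1
          exact (hZ hz).2 (hmono (not_lt.1 hcon) (hj hz))
        obtain ⟨m, hm⟩ : ∃ m, j = m + 1 := ⟨j - 1, by omega⟩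
        have hZm : ¬ Z ⊆ X m := Nat.find_min hex (by omega : m < j)
        have him : i ≤ m := by omega
        have hne : (Z \ X m).Nonempty := by
          rw [Set.not_subset] at hZm
          obtain ⟨z, hz, hz2⟩ := hZm
          exact ⟨z, hz, hz2⟩
        have hO2 : Obst G (X m) (Z \ X m) (s + 1) := obst_trans (hmono him) hO hne
        rcases (hst m).2.2.2 with h | ⟨d, hd1, hd2, hd3⟩
        · exact h (Z \ X m) (fun z hz => ⟨hm ▸ hj hz.1, hz.2⟩) hO2
        · exact hd3 (hb m him d hd1 hd2)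
    · intro C' _ hC'
      exact (hf C' hC').mono (fun _ _ _ h _ => h) subset_rfl subset_rfl (Nat.le_succ s)
  · intro hFr
    obtain ⟨ρ, hρ, h⟩ := hFr
    have hSW : S ⊆ W := hX0 ▸ hXW 0
    obtain ⟨I, hIf, hSI, hIW, hIcl⟩ := finite_closure' (H := G) (C := W) (ρ := ρ) (fun v hv => by
      refine Set.finite_of_encard_le_coe (k := s) ((Set.encard_le_encard ?_).trans (h v hv))
      rintro w ⟨hw1, hw2⟩
      exact ⟨hw1, Or.inr hw2⟩) hSW hS
    have hcl := Free.closed (H := G) (A := ∅) (B := I) (C := W) hρ h hIW hIcl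
    rw [Set.empty_union] at hcl
    have hclosed : Closed G s W I := by
      intro Z hZ hO
      exact not_free_of_obst hZ hO hcl
    have hXI : ∀ i, X i ⊆ I := fun i => (hX i).2.2.2 W I (hXW i) hSI hclosed
    -- strictly increasing
    have hcard : ∀ i, i ≤ (X i).ncard := by
      intro i
      induction i with
      | zero => exact Nat.zero_le _
      | succ i ih =>
        have : (X i).ncard < (X (i + 1)).ncard := by
          apply Set.ncard_lt_ncard _ (hX (i + 1)).1
          refine ⟨(hst i).1, fun hcon => ?_⟩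
          obtain ⟨z, hz, hz2⟩ := (hst i).2.2.1
          exact hz2 (hcon hz)
        omega
    have h1 := hcard (I.ncard + 1)
    have h2 := Set.ncard_le_ncard (hXI (I.ncard + 1)) hIf
    omega

theorem finite_exact {G : SimpleGraph V} {s : ℕ} {F : Set V} (hF : F.Finite)
    (h : ¬ Free G ∅ F s) : ∃ W : Set V, Free G ∅ W (s + 1) ∧ ¬ Free G ∅ W s := by
  classical
  have hex : ∃ k, ∃ F : Set V, F.Finite ∧ F.ncard = k ∧ ¬ Free G ∅ F s := ⟨_, F, hF, rfl, h⟩
  obtain ⟨W, hW, hk, hn⟩ := Nat.find_spec hex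
  refine ⟨W, ?_, hn⟩
  have hne : W.Nonempty := by
    by_contra hcon
    rw [Set.not_nonempty_iff_eq_empty] at hcon
    subst hcon
    exact hn (free_of_isolated (by simp))
  obtain ⟨v, hv⟩ := hne
  have hfree : Free G ∅ (W \ {v}) s := by
    by_contra hcon
    have h1 : (W \ {v}).ncard < W.ncard := Set.ncard_lt_ncard
      ⟨Set.sdiff_subset, fun h => (h hv).2 rfl⟩ hW
    exact Nat.find_min hex (hk ▸ h1) ⟨W \ {v}, hW.sdiff, rfl, hcon⟩
  apply Free.blocks (fun w => if w = v then (0 : Ordinal.{u}) else 1)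
  intro i
  obtain ⟨ρ, hρ, hr⟩ := hfree
  refine ⟨ρ, hρ, ?_⟩
  rintro w ⟨hw, hwi⟩
  by_cases hwv : w = v
  · subst hwv
    simp only [if_true] at hwi
    subst hwi
    refine (Set.encard_le_encard (t := ∅) ?_).trans (by simp)
    rintro x ⟨hx1, (hx2 | hx2) | hx2⟩
    · exact hx2
    · exact absurd hx2.2 (by simp)
    · have h2 := hx2.1.2
      by_cases hxw : x = w
      · exact absurd hxw hx1.ne'
      · simp [hxw] at h2
  · simp only [if_neg hwv] at hwi
    subst hwi
    have h1 := hr w ⟨hw, hwv⟩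
    have h2 : {x | G.Adj w x ∧ ((x ∈ (∅ : Set V) ∪ {y | y ∈ W ∧ (if y = v then (0 : Ordinal.{u}) else 1) < 1})
        ∨ (x ∈ {y | y ∈ W ∧ (if y = v then (0 : Ordinal.{u}) else 1) = 1} ∧ ρ x < ρ w))} ⊆
        insert v {x | G.Adj w x ∧ (x ∈ (∅ : Set V) ∨ (x ∈ W \ {v} ∧ ρ x < ρ w))} := by
      rintro x ⟨hx1, (hx2 | hx2) | hx2⟩
      · exact absurd hx2 (Set.notMem_empty _)
      · by_cases hxv : x = v
        · exact Or.inl hxv
        · have := hx2.2
          simp [hxv] at this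
      · by_cases hxv : x = v
        · exact Or.inl hxv
        · exact Or.inr ⟨hx1, Or.inr ⟨⟨hx2.1.1, hxv⟩, hx2.2⟩⟩
    refine (Set.encard_le_encard h2).trans ((Set.encard_insert_le _ _).trans ?_)
    push_cast
    gcongr

theorem exists_exact [Countable V] {G : SimpleGraph V} {s : ℕ} (h : ¬ Free G ∅ Set.univ s) :
    ∃ W : Set V, Free G ∅ W (s + 1) ∧ ¬ Free G ∅ W s := by
  by_cases hf : ∀ F : Set V, F.Finite → Free G ∅ F s
  · by_cases hS : ∃ S : Set V, S.Finite ∧ Gd G s S ∅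
    · obtain ⟨S, hS, hG⟩ := hS
      exact exact_set hS hf hG
    · exfalso
      apply h
      refine countable_free (Set.to_countable _) ?_ fun C' _ hC' => hf C' hC'
      intro S _ hS'
      have h1 : ¬ Gd G s S ∅ := fun h2 => hS ⟨S, hS', h2⟩
      unfold Gd at h1
      push Not at h1
      obtain ⟨Y, hY, hSY, hc⟩ := h1
      refine ⟨Y, hSY, Set.subset_univ _, hY, fun Z hZ hO => ?_⟩
      rw [Set.empty_union] at hO
      exact hc Z (by simpa using hZ) hO
  · push Not at hf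
    obtain ⟨F, hF, hn⟩ := hf
    exact finite_exact hF hn

theorem free_induce {G : SimpleGraph V} {W : Set V} {t : ℕ} :
    Free (G.induce W) ∅ Set.univ t ↔ Free G ∅ W t := by
  classical
  constructor
  · rintro ⟨ρ, hρ, h⟩
    obtain ⟨ρ0, hρ0⟩ := exists_inj V
    let L : Ordinal.{u} := ⨆ v : W, succ (ρ v)
    have hL : ∀ v : W, ρ v < L := fun v =>
      (lt_succ _).trans_le (le_ciSup (f := fun v : W => succ (ρ v))
        (Ordinal.bddAbove_of_small) v)
    let σ : V → Ordinal.{u} := fun v => if hv : v ∈ W then ρ ⟨v, hv⟩ else L + ρ0 v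
    have hσ : ∀ v (hv : v ∈ W), σ v = ρ ⟨v, hv⟩ := fun v hv => dif_pos hv
    have hσ' : ∀ v, v ∉ W → σ v = L + ρ0 v := fun v hv => dif_neg hv
    refine ⟨σ, ?_, ?_⟩
    · intro a b hab
      by_cases ha : a ∈ W <;> by_cases hb : b ∈ W
      · rw [hσ a ha, hσ b hb] at hab
        exact congrArg Subtype.val (hρ hab)
      · rw [hσ a ha, hσ' b hb] at hab
        exact absurd (hab ▸ hL ⟨a, ha⟩) (not_lt.2 le_self_add)
      · rw [hσ' a ha, hσ b hb] at hab
        exact absurd (hab ▸ hL ⟨b, hb⟩) (not_lt.2 le_self_add)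
      · rw [hσ' a ha, hσ' b hb] at hab
        exact hρ0 (by simpa using hab)
    · intro v hv
      refine le_trans ?_ (h ⟨v, hv⟩ (Set.mem_univ _))
      rw [← (Subtype.val_injective (p := fun x => x ∈ W)).encard_image]
      apply Set.encard_le_encard
      rintro w ⟨hw1, hw2 | ⟨hw2, hw3⟩⟩
      · exact absurd hw2 (Set.notMem_empty _)
      · refine ⟨⟨w, hw2⟩, ⟨hw1, Or.inr ⟨Set.mem_univ _, ?_⟩⟩, rfl⟩
        rwa [hσ w hw2, hσ v hv] at hw3
  · rintro ⟨ρ, hρ, h⟩
    refine ⟨fun v => ρ v, hρ.comp Subtype.val_injective, fun v _ => ?_⟩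
    refine le_trans ?_ (h v v.2)
    rw [← (Subtype.val_injective (p := fun x => x ∈ W)).encard_image]
    apply Set.encard_le_encard
    rintro _ ⟨w, ⟨hw1, hw2⟩, rfl⟩
    rcases hw2 with hw2 | hw2
    · exact absurd hw2 (Set.notMem_empty _)
    · exact ⟨hw1, Or.inr ⟨w.2, hw2.2⟩⟩

theorem main [Countable V] (G : SimpleGraph V) (n : ℕ) (hn : (n : Cardinal.{u}) ≤ col G) :
    ∃ W : Set V, col (G.induce W) = n := by
  rcases n with _ | _ | s
  · refine ⟨∅, ?_⟩
    have h1 : col (G.induce (∅ : Set V)) ≤ 0 :=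
      col_le _ WellOrderingRel inferInstance fun x => absurd x.2 (Set.notMem_empty _)
    simpa using h1
  · have hV : Nonempty V := by
      by_contra hcon
      rw [not_nonempty_iff] at hcon
      have h1 : col G ≤ 0 := col_le _ WellOrderingRel inferInstance fun x => (hcon.false x).elim
      have h2 := hn.trans h1
      norm_num at h2
    refine ⟨{hV.some}, ?_⟩
    have h1 : col (G.induce {hV.some}) ≤ ((0 + 1 : ℕ) : Cardinal.{u}) := by
      rw [col_le_iff]
      refine free_of_isolated ?_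
      intro v _ w hvw
      have : v = w := Subtype.ext (v.2.trans w.2.symm)
      exact absurd hvw (this ▸ SimpleGraph.irrefl _)
    refine le_antisymm h1 ?_
    obtain ⟨r, hr, hx⟩ := col_mem (G.induce {hV.some})
    have h2 := lt_of_le_of_lt (zero_le (a := _)) (hx ⟨hV.some, rfl⟩)
    rw [Nat.cast_succ, Nat.cast_zero, zero_add]
    exact Cardinal.one_le_iff_pos.2 h2
  · have h1 : ¬ Free G ∅ Set.univ s := by
      rw [← col_le_iff]
      intro hcon
      have h2 := hn.trans hcon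
      have h3 : s + 1 + 1 ≤ s + 1 := by exact_mod_cast h2
      omega
    obtain ⟨W, hW, hnW⟩ := exists_exact h1
    refine ⟨W, ?_⟩
    rw [← free_induce, ← col_le_iff] at hW hnW
    refine le_antisymm hW ?_
    rw [Nat.cast_succ, ← Cardinal.succ_natCast]
    exact Order.succ_le_of_lt (not_le.1 hnW)

end Pool.Agent.H212R4.IndCol
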