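import Mathlib

set_option autoImplicit false

open Set

namespace Pool.Agent.H212R4.Pierce

/-- the plane -/
abbrev E := EuclideanSpace ℝ (Fin 2)

section
variable {ι : Type} [Fintype ι] [DecidableEq ι]

/-- the members with index in `S` have a common point -/
def Inter (A : ι → Set E) (S : Finset ι) : Prop := ∃ p, ∀ i ∈ S, p ∈ A i

open Classical in
/-- the members which miss `U` -/
noncomputable def Dis (A : ι → Set E) (U : Set E) : Finset ι :=
  Finset.univ.filter (fun i => A i ∩ U = ∅)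

lemma mem_Dis {A : ι → Set E} {U : Set E} {i : ι} : i ∈ Dis A U ↔ A i ∩ U = ∅ := by
  classical
  simp [Dis]

/-- every `k` members can be pierced by two points -/
def Loc (A : ι → Set E) (k : ℕ) : Prop :=
  ∀ G : Finset ι, G.card ≤ k → ∃ p q, ∀ i ∈ G, p ∈ A i ∨ q ∈ A i

omit [Fintype ι] in
lemma helly {A : ι → Set E} (hc : ∀ i, Convex ℝ (A i)) {S : Finset ι} (h : ¬ Inter A S) :
    ∃ T ⊆ S, T.card ≤ 3 ∧ ¬ Inter A T := by
  by_contra hcon
  push Not at hcon
  apply h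
  have h3 : Module.finrank ℝ E = 2 := by simp
  have := Convex.helly_theorem' (𝕜 := ℝ) (F := A) (s := S) (fun i _ => hc i) (by
    intro I hI hcard
    rw [h3] at hcard
    obtain ⟨p, hp⟩ := hcon I hI hcard
    exact ⟨p, by simpa using hp⟩)
  obtain ⟨p, hp⟩ := this
  exact ⟨p, by simpa using hp⟩

omit [Fintype ι] [DecidableEq ι] in
lemma force {A : ι → Set E} {U : Set E} {T : Finset ι} (hT : ∀ i ∈ T, A i ∩ U = ∅)
    (hn : ¬ Inter A T) {p q : E} (h : ∀ i ∈ T, p ∈ A i ∨ q ∈ A i) : p ∉ U ∧ q ∉ U := by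
  constructor
  · intro hp
    apply hn
    refine ⟨q, fun i hi => ?_⟩
    rcases h i hi with h1 | h1
    · have : p ∈ A i ∩ U := ⟨h1, hp⟩
      rw [hT i hi] at this
      exact absurd this (notMem_empty _)
    · exact h1
  · intro hq
    apply hn
    refine ⟨p, fun i hi => ?_⟩
    rcases h i hi with h1 | h1
    · exact h1
    · have : q ∈ A i ∩ U := ⟨h1, hq⟩
      rw [hT i hi] at this
      exact absurd this (notMem_empty _)

/-- certificate of badness -/
lemma cert {A : ι → Set E} (hc : ∀ i, Convex ℝ (A i)) {U : Set E} (h : ¬ Inter A (Dis A U)) :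
    ∃ T : Finset ι, T.card ≤ 3 ∧ (∀ i ∈ T, A i ∩ U = ∅) ∧ ¬ Inter A T := by
  obtain ⟨T, hT, h1, h2⟩ := helly hc h
  exact ⟨T, h1, fun i hi => mem_Dis.1 (hT hi), h2⟩

/-- each member is good -/
lemma good_self {A : ι → Set E} (hc : ∀ i, Convex ℝ (A i)) (hl : Loc A 4) (i : ι) :
    Inter A (Dis A (A i)) := by
  by_contra h
  obtain ⟨T, hT, h1, h2⟩ := cert hc h
  obtain ⟨p, q, hpq⟩ := hl (insert i T) (by
    have := Finset.card_insert_le i T; omega)
  have hf := force h1 h2 (fun j hj => hpq j (Finset.mem_insert_of_mem hj))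
  rcases hpq i (Finset.mem_insert_self _ _) with h3 | h3
  · exact hf.1 h3
  · exact hf.2 h3

end

/-- crossing a vertical line -/
lemma cross {a b : E} {t : ℝ} (h1 : t ≤ a 0) (h2 : b 0 ≤ t) : ∃ m ∈ segment ℝ a b, m 0 = t := by
  rcases eq_or_lt_of_le (h2.trans h1) with h | h
  · refine ⟨a, left_mem_segment _ _ _, ?_⟩
    linarith
  · refine ⟨(1 - (a 0 - t) / (a 0 - b 0)) • a + ((a 0 - t) / (a 0 - b 0)) • b, ?_, ?_⟩
    · refine ⟨1 - (a 0 - t) / (a 0 - b 0), (a 0 - t) / (a 0 - b 0), ?_, ?_, by ring, rfl⟩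
      · rw [sub_nonneg, div_le_one] <;> linarith
      · apply div_nonneg <;> linarith
    · have : a 0 - b 0 ≠ 0 := by linarith
      simp
      field_simp
      ring

/-- a point between two points of a vertical line -/
lemma between {m w z : E} {t : ℝ} (hm : m 0 = t) (hw : w 0 = t) (hz : z 0 = t)
    (h1 : m 1 ≤ z 1) (h2 : z 1 ≤ w 1) : z ∈ segment ℝ m w := by
  rcases eq_or_lt_of_le (h1.trans h2) with h | h
  · have : z = m := by
      ext i
      fin_cases i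
      · simp [hm, hz]
      · simp; linarith
    rw [this]; exact left_mem_segment _ _ _
  · refine ⟨1 - (z 1 - m 1) / (w 1 - m 1), (z 1 - m 1) / (w 1 - m 1), ?_, ?_, by ring, ?_⟩
    · rw [sub_nonneg, div_le_one] <;> linarith
    · apply div_nonneg <;> linarith
    · have h3 : w 1 - m 1 ≠ 0 := by linarith
      ext i
      fin_cases i
      · simp [hm, hw, hz]
        ring
      · simp
        field_simp
        ring

lemma zlemma {ι : Type} {A : ι → Set E} (hc : ∀ i, Convex ℝ (A i)) (hk : ∀ i, IsCompact (A i))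
    (t : ℝ) (S : Finset ι) (hS : S.Nonempty)
    (hcr : ∀ i ∈ S, (∃ a ∈ A i, t ≤ a 0) ∧ (∃ b ∈ A i, b 0 ≤ t)) :
    ∃ j ∈ S, ∃ z ∈ A j, ∀ i ∈ S, z ∈ A i ∨ A i ∩ (A j ∩ {v | t ≤ v 0}) = ∅ ∨
      A i ∩ (A j ∩ {v | v 0 ≤ t}) = ∅ := by
  classical
  have hc0 : Continuous (fun v : E => v 0) := by fun_prop
  have hc1 : Continuous (fun v : E => v 1) := by fun_prop
  have htop : ∀ i ∈ S, ∃ z ∈ A i, z 0 = t ∧ ∀ m ∈ A i, m 0 = t → m 1 ≤ z 1 := by
    intro i hi
    obtain ⟨⟨a, ha, ha'⟩, ⟨b, hb, hb'⟩⟩ := hcr i hi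
    obtain ⟨m, hm, hm'⟩ := cross ha' hb'
    have hmA : m ∈ A i := (hc i).segment_subset ha hb hm
    have hcomp : IsCompact (A i ∩ {v : E | v 0 = t}) :=
      (hk i).inter_right (isClosed_eq hc0 continuous_const)
    obtain ⟨z, hz, hz'⟩ := hcomp.exists_isMaxOn ⟨m, hmA, hm'⟩ hc1.continuousOn
    exact ⟨z, hz.1, hz.2, fun w hw hw' => hz' ⟨hw, hw'⟩⟩
  choose! top h1 h2 h3 using htop
  obtain ⟨j, hj, hjm⟩ := Finset.exists_min_image S (fun i => top i 1) hS
  refine ⟨j, hj, top j, h1 j hj, fun i hi => ?_⟩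
  by_contra hcon
  push Not at hcon
  obtain ⟨hz, ⟨a, ha⟩, ⟨b, hb⟩⟩ := hcon
  obtain ⟨m, hm, hm'⟩ := cross ha.2.2 hb.2.2
  have hmi : m ∈ A i := (hc i).segment_subset ha.1 hb.1 hm
  have hmj : m ∈ A j := (hc j).segment_subset ha.2.1 hb.2.1 hm
  apply hz
  apply (hc i).segment_subset hmi (h1 i hi)
  exact between hm' (h2 i hi) (h2 j hj) (h3 j hj m hmj hm') (hjm i hi)

section
variable {ι : Type} [Fintype ι] [DecidableEq ι]

lemma good_mono {A : ι → Set E} {T : Finset ι} {U : Set E} (hT : ∀ i ∈ T, A i ∩ U = ∅)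
    (h : Inter A (Dis A U)) : Inter A T := by
  obtain ⟨p, hp⟩ := h
  exact ⟨p, fun i hi => hp i (mem_Dis.2 (hT i hi))⟩

lemma claimB {A : ι → Set E} (hc : ∀ i, Convex ℝ (A i)) (hl : Loc A 33) {U V : Set E}
    (hUV : ∀ v, v ∈ U ∨ v ∈ V) {c : ι} (hcc : ¬ Inter A (Dis A (A c ∩ U))) {S : Finset ι}
    (hS : ∀ i ∈ S, ¬ Inter A (Dis A (A i ∩ V))) : Inter A S := by
  by_contra hcon
  obtain ⟨S', hS', hcard, hn⟩ := helly hc hcon
  obtain ⟨Tc, hTc1, hTc2, hTc3⟩ := cert hc hcc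
  have hcert : ∀ i ∈ S', ∃ T : Finset ι, T.card ≤ 3 ∧ (∀ k ∈ T, A k ∩ (A i ∩ V) = ∅) ∧
      ¬ Inter A T := fun i hi => cert hc (hS i (hS' hi))
  choose! TV h1 h2 h3 using hcert
  obtain ⟨p, q, hpq⟩ := hl (S' ∪ S'.biUnion TV ∪ {c} ∪ Tc) (by
    have e1 : (S'.biUnion TV).card ≤ 9 := by
      calc (S'.biUnion TV).card ≤ ∑ i ∈ S', (TV i).card := Finset.card_biUnion_le
        _ ≤ ∑ i ∈ S', 3 := Finset.sum_le_sum (fun i hi => h1 i hi)
        _ ≤ 9 := by simp; omega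
    have e2 := Finset.card_union_le (S' ∪ S'.biUnion TV ∪ {c}) Tc
    have e3 := Finset.card_union_le (S' ∪ S'.biUnion TV) {c}
    have e4 := Finset.card_union_le S' (S'.biUnion TV)
    simp only [Finset.card_singleton] at e3
    omega)
  have hfc := force hTc2 hTc3 (fun i hi => hpq i (by simp [hi]))
  have hfi : ∀ i ∈ S', p ∉ A i ∩ V ∧ q ∉ A i ∩ V := fun i hi =>
    force (h2 i hi) (h3 i hi) (fun k hk => hpq k (by
      simp only [Finset.mem_union, Finset.mem_biUnion]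
      exact Or.inl (Or.inl (Or.inr ⟨i, hi, hk⟩))))
  rcases hpq c (by simp) with hp | hq
  · have hpV : p ∈ V := by
      rcases hUV p with h | h
      · exact absurd ⟨hp, h⟩ hfc.1
      · exact h
    apply hn
    refine ⟨q, fun i hi => ?_⟩
    rcases hpq i (by simp [hi]) with h | h
    · exact absurd ⟨h, hpV⟩ (hfi i hi).1
    · exact h
  · have hqV : q ∈ V := by
      rcases hUV q with h | h
      · exact absurd ⟨hq, h⟩ hfc.2
      · exact h
    apply hn
    refine ⟨p, fun i hi => ?_⟩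
    rcases hpq i (by simp [hi]) with h | h
    · exact h
    · exact absurd ⟨h, hqV⟩ (hfi i hi).2

omit [Fintype ι] [DecidableEq ι] in
lemma core {A : ι → Set E} {U V : Set E} {p q : E} {j : ι} {T1 T2 : Finset ι}
    (hpU : p ∈ U) (hqV : q ∈ V) (hj : p ∈ A j ∨ q ∈ A j)
    (h1 : ∀ i ∈ T1, p ∈ A i ∨ q ∈ A i) (h2 : ∀ i ∈ T2, p ∈ A i ∨ q ∈ A i)
    (hT1 : ∀ i ∈ T1, A i ∩ (A j ∩ V) = ∅ ∨ q ∉ A i ∩ V)
    (hT2 : ∀ i ∈ T2, A i ∩ (A j ∩ U) = ∅ ∨ p ∉ A i ∩ U)
    (hn1 : ¬ Inter A T1) (hn2 : ¬ Inter A T2) : False := by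
  rcases hj with hj | hj
  · apply hn2
    refine ⟨q, fun i hi => ?_⟩
    rcases h2 i hi with h | h
    · exfalso
      rcases hT2 i hi with h3 | h3
      · have : p ∈ A i ∩ (A j ∩ U) := ⟨h, hj, hpU⟩
        rw [h3] at this; exact notMem_empty _ this
      · exact h3 ⟨h, hpU⟩
    · exact h
  · apply hn1
    refine ⟨p, fun i hi => ?_⟩
    rcases h1 i hi with h | h
    · exact h
    · exfalso
      rcases hT1 i hi with h3 | h3
      · have : q ∈ A i ∩ (A j ∩ V) := ⟨h, hj, hqV⟩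
        rw [h3] at this; exact notMem_empty _ this
      · exact h3 ⟨h, hqV⟩

lemma claimA {A : ι → Set E} (hc : ∀ i, Convex ℝ (A i)) (hl : Loc A 33) {U V : Set E}
    (hUV : ∀ v, v ∈ U ∨ v ∈ V) {c c' j : ι} (hcc : ¬ Inter A (Dis A (A c ∩ U)))
    (hcc' : ¬ Inter A (Dis A (A c' ∩ V))) {S1 S2 : Finset ι}
    (hS1 : ∀ i ∈ S1, A i ∩ (A j ∩ V) = ∅ ∨ ¬ Inter A (Dis A (A i ∩ V)))
    (hS2 : ∀ i ∈ S2, A i ∩ (A j ∩ U) = ∅ ∨ ¬ Inter A (Dis A (A i ∩ U))) :
    Inter A S1 ∨ Inter A S2 := by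
  by_contra hcon
  push Not at hcon
  obtain ⟨hn1, hn2⟩ := hcon
  obtain ⟨T1, hT1, hc1, hn1⟩ := helly hc hn1
  obtain ⟨T2, hT2, hc2, hn2⟩ := helly hc hn2
  obtain ⟨Tc, hTc1, hTc2, hTc3⟩ := cert hc hcc
  obtain ⟨Tc', hTc1', hTc2', hTc3'⟩ := cert hc hcc'
  have hcertV : ∀ i, ∃ T : Finset ι, T.card ≤ 3 ∧ (¬ Inter A (Dis A (A i ∩ V)) →
      (∀ k ∈ T, A k ∩ (A i ∩ V) = ∅) ∧ ¬ Inter A T) := by
    intro i
    by_cases h : Inter A (Dis A (A i ∩ V))
    · exact ⟨∅, by simp, fun h' => absurd h h'⟩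
    · obtain ⟨T, a1, a2, a3⟩ := cert hc h
      exact ⟨T, a1, fun _ => ⟨a2, a3⟩⟩
  have hcertU : ∀ i, ∃ T : Finset ι, T.card ≤ 3 ∧ (¬ Inter A (Dis A (A i ∩ U)) →
      (∀ k ∈ T, A k ∩ (A i ∩ U) = ∅) ∧ ¬ Inter A T) := by
    intro i
    by_cases h : Inter A (Dis A (A i ∩ U))
    · exact ⟨∅, by simp, fun h' => absurd h h'⟩
    · obtain ⟨T, a1, a2, a3⟩ := cert hc h
      exact ⟨T, a1, fun _ => ⟨a2, a3⟩⟩
  choose TV v1 v2 using hcertV
  choose TU u1 u2 using hcertU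
  obtain ⟨p, q, hpq⟩ := hl (T1 ∪ T2 ∪ {j} ∪ {c} ∪ {c'} ∪ Tc ∪ Tc' ∪ T1.biUnion TV ∪
      T2.biUnion TU) (by
    have e1 : (T1.biUnion TV).card ≤ 9 := by
      calc (T1.biUnion TV).card ≤ ∑ i ∈ T1, (TV i).card := Finset.card_biUnion_le
        _ ≤ ∑ i ∈ T1, 3 := Finset.sum_le_sum (fun i hi => v1 i)
        _ ≤ 9 := by simp; omega
    have e2 : (T2.biUnion TU).card ≤ 9 := by
      calc (T2.biUnion TU).card ≤ ∑ i ∈ T2, (TU i).card := Finset.card_biUnion_le
        _ ≤ ∑ i ∈ T2, 3 := Finset.sum_le_sum (fun i hi => u1 i)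
        _ ≤ 9 := by simp; omega
    have f1 := Finset.card_union_le (T1 ∪ T2 ∪ {j} ∪ {c} ∪ {c'} ∪ Tc ∪ Tc' ∪ T1.biUnion TV)
      (T2.biUnion TU)
    have f2 := Finset.card_union_le (T1 ∪ T2 ∪ {j} ∪ {c} ∪ {c'} ∪ Tc ∪ Tc') (T1.biUnion TV)
    have f3 := Finset.card_union_le (T1 ∪ T2 ∪ {j} ∪ {c} ∪ {c'} ∪ Tc) Tc'
    have f4 := Finset.card_union_le (T1 ∪ T2 ∪ {j} ∪ {c} ∪ {c'}) Tc
    have f5 := Finset.card_union_le (T1 ∪ T2 ∪ {j} ∪ {c}) {c'}
    have f6 := Finset.card_union_le (T1 ∪ T2 ∪ {j}) {c}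
    have f7 := Finset.card_union_le (T1 ∪ T2) {j}
    have f8 := Finset.card_union_le T1 T2
    simp only [Finset.card_singleton] at f5 f6 f7
    omega)
  have hfc := force hTc2 hTc3 (fun i hi => hpq i (by simp [hi]))
  have hfc' := force hTc2' hTc3' (fun i hi => hpq i (by simp [hi]))
  have hV : ∀ i ∈ T1, ¬ Inter A (Dis A (A i ∩ V)) → p ∉ A i ∩ V ∧ q ∉ A i ∩ V := by
    intro i hi hb
    exact force (v2 i hb).1 (v2 i hb).2 (fun k hk => hpq k (by
      simp only [Finset.mem_union, Finset.mem_biUnion]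
      exact Or.inl (Or.inr ⟨i, hi, hk⟩)))
  have hU : ∀ i ∈ T2, ¬ Inter A (Dis A (A i ∩ U)) → p ∉ A i ∩ U ∧ q ∉ A i ∩ U := by
    intro i hi hb
    exact force (u2 i hb).1 (u2 i hb).2 (fun k hk => hpq k (by
      simp only [Finset.mem_union, Finset.mem_biUnion]
      exact Or.inr ⟨i, hi, hk⟩))
  have g1 : ∀ i ∈ T1, p ∈ A i ∨ q ∈ A i := fun i hi => hpq i (by simp [hi])
  have g2 : ∀ i ∈ T2, p ∈ A i ∨ q ∈ A i := fun i hi => hpq i (by simp [hi])
  have gj : p ∈ A j ∨ q ∈ A j := hpq j (by simp)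
  have gc : p ∈ A c ∨ q ∈ A c := hpq c (by simp)
  have gc' : p ∈ A c' ∨ q ∈ A c' := hpq c' (by simp)
  have k1 : ∀ r, (r ∉ A c ∩ U) → r ∈ A c → r ∉ U := fun r h h' h'' => h ⟨h', h''⟩
  have k2 : ∀ r, (r ∉ A c' ∩ V) → r ∈ A c' → r ∉ V := fun r h h' h'' => h ⟨h', h''⟩
  have o1 : ∀ r, r ∉ U → r ∈ V := fun r h => (hUV r).resolve_left h
  have o2 : ∀ r, r ∉ V → r ∈ U := fun r h => (hUV r).resolve_right h
  rcases gc with hp | hq
  · -- `p` is not in `U`
    have pU := k1 p hfc.1 hp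
    rcases gc' with hp' | hq'
    · exact pU (o2 p (k2 p hfc'.1 hp'))
    · have qV := k2 q hfc'.2 hq'
      refine core (A := A) (p := q) (q := p) (U := U) (V := V) (j := j) (T1 := T1) (T2 := T2)
        (o2 q qV) (o1 p pU) gj.symm (fun i hi => (g1 i hi).symm) (fun i hi => (g2 i hi).symm)
        (fun i hi => ?_) (fun i hi => ?_) hn1 hn2
      · exact (hS1 i (hT1 hi)).imp_right (fun hb => (hV i hi hb).1)
      · exact (hS2 i (hT2 hi)).imp_right (fun hb => (hU i hi hb).2)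
  · have qU := k1 q hfc.2 hq
    rcases gc' with hp' | hq'
    · have pV := k2 p hfc'.1 hp'
      refine core (A := A) (p := p) (q := q) (U := U) (V := V) (j := j) (T1 := T1) (T2 := T2)
        (o2 p pV) (o1 q qU) gj g1 g2 (fun i hi => ?_) (fun i hi => ?_) hn1 hn2
      · exact (hS1 i (hT1 hi)).imp_right (fun hb => (hV i hi hb).2)
      · exact (hS2 i (hT2 hi)).imp_right (fun hb => (hU i hi hb).1)
    · exact qU (o2 q (k2 q hfc'.2 hq'))

/-- openness, left version -/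
lemma openL {K : Set E} (hK : IsCompact K) {t : ℝ} (h : K ∩ {v : E | v 0 ≤ t} = ∅) :
    ∃ ε : ℝ, 0 < ε ∧ K ∩ {v : E | v 0 ≤ t + ε} = ∅ := by
  rcases K.eq_empty_or_nonempty with h0 | h0
  · exact ⟨1, one_pos, by simp [h0]⟩
  · have hc0 : Continuous (fun v : E => v 0) := by fun_prop
    obtain ⟨m, hm, hm'⟩ := hK.exists_isMinOn h0 hc0.continuousOn
    have h1 : t < m 0 := by
      by_contra hcon
      push Not at hcon
      have : m ∈ K ∩ {v : E | v 0 ≤ t} := ⟨hm, hcon⟩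
      rw [h] at this; exact notMem_empty _ this
    refine ⟨(m 0 - t) / 2, by linarith, ?_⟩
    ext v
    simp only [mem_inter_iff, mem_setOf_eq, mem_empty_iff_false, iff_false, not_and, not_le]
    intro hv
    have : m 0 ≤ v 0 := hm' hv
    linarith

/-- openness, right version -/
lemma openR {K : Set E} (hK : IsCompact K) {t : ℝ} (h : K ∩ {v : E | t ≤ v 0} = ∅) :
    ∃ ε : ℝ, 0 < ε ∧ K ∩ {v : E | t - ε ≤ v 0} = ∅ := by
  rcases K.eq_empty_or_nonempty with h0 | h0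
  · exact ⟨1, one_pos, by simp [h0]⟩
  · have hc0 : Continuous (fun v : E => v 0) := by fun_prop
    obtain ⟨m, hm, hm'⟩ := hK.exists_isMaxOn h0 hc0.continuousOn
    have h1 : m 0 < t := by
      by_contra hcon
      push Not at hcon
      have : m ∈ K ∩ {v : E | t ≤ v 0} := ⟨hm, hcon⟩
      rw [h] at this; exact notMem_empty _ this
    refine ⟨(t - m 0) / 2, by linarith, ?_⟩
    ext v
    simp only [mem_inter_iff, mem_setOf_eq, mem_empty_iff_false, iff_false, not_and, not_le]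
    intro hv
    have : v 0 ≤ m 0 := hm' hv
    linarith

lemma alpha_open {A : ι → Set E} (hc : ∀ i, Convex ℝ (A i)) (hk : ∀ i, IsCompact (A i)) {t : ℝ}
    {i : ι} (h : ¬ Inter A (Dis A (A i ∩ {v : E | v 0 ≤ t}))) :
    ∃ t', t < t' ∧ ¬ Inter A (Dis A (A i ∩ {v : E | v 0 ≤ t'})) := by
  obtain ⟨T, h1, h2, h3⟩ := cert hc h
  have h4 : ∀ k ∈ T, ∃ ε : ℝ, 0 < ε ∧ (A k ∩ A i) ∩ {v : E | v 0 ≤ t + ε} = ∅ := by
    intro k hkT
    apply openL ((hk k).inter (hk i))
    rw [inter_assoc]; exact h2 k hkT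
  choose! ε e1 e2 using h4
  have : ∃ δ : ℝ, 0 < δ ∧ ∀ k ∈ T, δ ≤ ε k := by
    rcases T.eq_empty_or_nonempty with h0 | h0
    · exact ⟨1, one_pos, by simp [h0]⟩
    · obtain ⟨k, hk1, hk2⟩ := Finset.exists_min_image T ε h0
      exact ⟨ε k, e1 k hk1, hk2⟩
  obtain ⟨δ, d1, d2⟩ := this
  refine ⟨t + δ, by linarith, fun hg => h3 (good_mono (fun k hkT => ?_) hg)⟩
  rw [← inter_assoc]
  apply Set.eq_empty_of_subset_empty
  rw [← e2 k hkT]
  apply inter_subset_inter_right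
  intro v hv
  simp only [mem_setOf_eq] at hv ⊢
  have := d2 k hkT
  linarith

lemma beta_open {A : ι → Set E} (hc : ∀ i, Convex ℝ (A i)) (hk : ∀ i, IsCompact (A i)) {t : ℝ}
    {i : ι} (h : ¬ Inter A (Dis A (A i ∩ {v : E | t ≤ v 0}))) :
    ∃ t', t' < t ∧ ¬ Inter A (Dis A (A i ∩ {v : E | t' ≤ v 0})) := by
  obtain ⟨T, h1, h2, h3⟩ := cert hc h
  have h4 : ∀ k ∈ T, ∃ ε : ℝ, 0 < ε ∧ (A k ∩ A i) ∩ {v : E | t - ε ≤ v 0} = ∅ := by
    intro k hkT
    apply openR ((hk k).inter (hk i))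
    rw [inter_assoc]; exact h2 k hkT
  choose! ε e1 e2 using h4
  have : ∃ δ : ℝ, 0 < δ ∧ ∀ k ∈ T, δ ≤ ε k := by
    rcases T.eq_empty_or_nonempty with h0 | h0
    · exact ⟨1, one_pos, by simp [h0]⟩
    · obtain ⟨k, hk1, hk2⟩ := Finset.exists_min_image T ε h0
      exact ⟨ε k, e1 k hk1, hk2⟩
  obtain ⟨δ, d1, d2⟩ := this
  refine ⟨t - δ, by linarith, fun hg => h3 (good_mono (fun k hkT => ?_) hg)⟩
  rw [← inter_assoc]
  apply Set.eq_empty_of_subset_empty
  rw [← e2 k hkT]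
  apply inter_subset_inter_right
  intro v hv
  simp only [mem_setOf_eq] at hv ⊢
  have := d2 k hkT
  linarith

/-- existence of the vertical line -/
lemma exists_line {A : ι → Set E} (hc : ∀ i, Convex ℝ (A i)) (hk : ∀ i, IsCompact (A i))
    (hl : Loc A 33) (hni : ¬ Inter A Finset.univ) :
    ∃ t : ℝ, ((∃ i, ¬ Inter A (Dis A (A i ∩ {v : E | v 0 ≤ t}))) ∧
        (∃ i, ¬ Inter A (Dis A (A i ∩ {v : E | t ≤ v 0})))) ∨
      ((∀ i, Inter A (Dis A (A i ∩ {v : E | v 0 ≤ t}))) ∧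
        (∀ i, Inter A (Dis A (A i ∩ {v : E | t ≤ v 0})))) := by
  have hne : Nonempty ι := by
    by_contra h
    rw [not_nonempty_iff] at h
    exact hni ⟨0, fun i => (h.false i).elim⟩
  have hc0 : Continuous (fun v : E => v 0) := by fun_prop
  have hl4 : Loc A 4 := fun G hG => hl G (by omega)
  -- a common bound
  have hbd : ∃ B : ℝ, ∀ i, ∀ v ∈ A i, |v 0| ≤ B := by
    have : ∀ i, ∃ B : ℝ, ∀ v ∈ A i, |v 0| ≤ B := by
      intro i
      obtain ⟨B, hB⟩ := (hk i).exists_bound_of_continuousOn hc0.continuousOn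
      exact ⟨B, fun v hv => by simpa using hB v hv⟩
    choose B hB using this
    refine ⟨∑ i, |B i|, fun i v hv => (hB i v hv).trans ((le_abs_self _).trans ?_)⟩
    exact Finset.single_le_sum (f := fun i => |B i|) (fun i _ => abs_nonneg _) (Finset.mem_univ i)
  obtain ⟨B, hB⟩ := hbd
  set α : Set ℝ := {t | ∃ i, ¬ Inter A (Dis A (A i ∩ {v : E | v 0 ≤ t}))} with hα
  have hempty : ¬ Inter A (Dis A (∅ : Set E)) := by
    intro h
    exact hni (good_mono (U := ∅) (fun i _ => by simp) h)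
  have hαne : α.Nonempty := by
    refine ⟨-B - 1, hne.some, ?_⟩
    have : A hne.some ∩ {v : E | v 0 ≤ -B - 1} = ∅ := by
      ext v
      simp only [mem_inter_iff, mem_setOf_eq, mem_empty_iff_false, iff_false, not_and, not_le]
      intro hv
      have := (abs_le.1 (hB _ v hv)).1
      linarith
    rw [this]; exact hempty
  have hαanti : ∀ t t', t' ≤ t → t ∈ α → t' ∈ α := by
    rintro t t' htt ⟨i, hi⟩
    refine ⟨i, fun hg => hi (good_mono (U := A i ∩ {v : E | v 0 ≤ t'}) (fun k hk' => ?_) hg)⟩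
    have h5 := mem_Dis.1 hk'
    apply Set.eq_empty_of_subset_empty
    rw [← h5]
    apply inter_subset_inter_right
    apply inter_subset_inter_right
    intro v hv
    simp only [mem_setOf_eq] at hv ⊢
    linarith
  have hαbd : BddAbove α := by
    refine ⟨B, fun t ht => ?_⟩
    by_contra hcon
    push Not at hcon
    obtain ⟨i, hi⟩ := ht
    apply hi
    have : A i ∩ {v : E | v 0 ≤ t} = A i := by
      apply inter_eq_left.2
      intro v hv
      have := (abs_le.1 (hB _ v hv)).2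
      simp only [mem_setOf_eq]; linarith
    rw [this]
    exact good_self hc hl4 i
  set t0 := sSup α with ht0
  have hnα : t0 ∉ α := by
    rintro ⟨i, hi⟩
    obtain ⟨t', h1, h2⟩ := alpha_open hc hk hi
    have : t' ≤ t0 := le_csSup hαbd ⟨i, h2⟩
    linarith
  by_cases hβ : ∃ i, ¬ Inter A (Dis A (A i ∩ {v : E | t0 ≤ v 0}))
  · obtain ⟨i, hi⟩ := hβ
    obtain ⟨t', h1, h2⟩ := beta_open hc hk hi
    obtain ⟨t'', h3, h4⟩ := exists_lt_of_lt_csSup hαne h1
    exact ⟨t', Or.inl ⟨hαanti t'' t' h4.le h3, ⟨i, h2⟩⟩⟩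
  · push Not at hβ
    refine ⟨t0, Or.inr ⟨fun i => ?_, hβ⟩⟩
    by_contra hcon
    exact hnα ⟨i, hcon⟩

lemma meets {A : ι → Set E} (hni : ¬ Inter A Finset.univ) {U : Set E} {i : ι}
    (h : Inter A (Dis A (A i ∩ U))) : ∃ a ∈ A i, a ∈ U := by
  by_contra hcon
  push Not at hcon
  apply hni
  have : A i ∩ U = ∅ := by
    ext v; simp only [mem_inter_iff, mem_empty_iff_false, iff_false, not_and]; exact hcon v
  rw [this] at h
  exact good_mono (U := ∅) (fun k _ => by simp) h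

/-- the main theorem for compact convex sets -/
theorem main4 {A : ι → Set E} (hc : ∀ i, Convex ℝ (A i)) (hk : ∀ i, IsCompact (A i))
    (hl : Loc A 33) : ∃ P : Finset E, P.card ≤ 4 ∧ ∀ i, ∃ p ∈ P, p ∈ A i := by
  classical
  by_cases hni : Inter A Finset.univ
  · obtain ⟨p, hp⟩ := hni
    exact ⟨{p}, by simp, fun i => ⟨p, by simp, hp i (Finset.mem_univ i)⟩⟩
  obtain ⟨t, ht⟩ := exists_line hc hk hl hni
  set U : Set E := {v : E | v 0 ≤ t} with hU
  set V : Set E := {v : E | t ≤ v 0} with hV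
  have hUV : ∀ v, v ∈ U ∨ v ∈ V := fun v => le_total (v 0) t
  have hne : Nonempty ι := by
    by_contra h
    rw [not_nonempty_iff] at h
    exact hni ⟨0, fun i => (h.false i).elim⟩
  rcases ht with ⟨⟨c, hcU⟩, ⟨c', hcV⟩⟩ | ⟨hgU, hgV⟩
  · -- splitting line
    have hl33 := hl
    set GV : Finset ι := Finset.univ.filter (fun i => ¬ Inter A (Dis A (A i ∩ V))) with hGV
    set GU : Finset ι := Finset.univ.filter (fun i => ¬ Inter A (Dis A (A i ∩ U))) with hGU
    have hiV : Inter A GV := claimB hc hl hUV hcU (fun i hi => (Finset.mem_filter.1 hi).2)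
    have hiU : Inter A GU := claimB hc hl (fun v => (hUV v).symm) hcV
      (fun i hi => (Finset.mem_filter.1 hi).2)
    obtain ⟨pV, hpV⟩ := hiV
    obtain ⟨pU, hpU⟩ := hiU
    set S : Finset ι := Finset.univ.filter (fun i => Inter A (Dis A (A i ∩ U)) ∧
      Inter A (Dis A (A i ∩ V))) with hS
    rcases S.eq_empty_or_nonempty with hS0 | hSne
    · refine ⟨{pV, pU}, (Finset.card_le_two).trans (by norm_num), fun i => ?_⟩
      by_cases h1 : Inter A (Dis A (A i ∩ U))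
      · by_cases h2 : Inter A (Dis A (A i ∩ V))
        · have : i ∈ S := by simp [hS, h1, h2]
          rw [hS0] at this; exact absurd this (Finset.notMem_empty _)
        · exact ⟨pV, by simp, hpV i (by simp [hGV, h2])⟩
      · exact ⟨pU, by simp, hpU i (by simp [hGU, h1])⟩
    · obtain ⟨j, hj, z, hz, hzz⟩ := zlemma hc hk t S hSne (fun i hi => by
        have := (Finset.mem_filter.1 hi).2
        exact ⟨meets hni this.2, meets hni this.1⟩)
      have hjj := (Finset.mem_filter.1 hj).2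
      obtain ⟨cU, hcU'⟩ := hjj.1
      obtain ⟨cV, hcV'⟩ := hjj.2
      set S1 : Finset ι := Finset.univ.filter (fun i => A i ∩ (A j ∩ V) = ∅ ∨
        ¬ Inter A (Dis A (A i ∩ V))) with hS1
      set S2 : Finset ι := Finset.univ.filter (fun i => A i ∩ (A j ∩ U) = ∅ ∨
        ¬ Inter A (Dis A (A i ∩ U))) with hS2
      rcases claimA hc hl hUV hcU hcV (j := j) (S1 := S1) (S2 := S2)
        (fun i hi => (Finset.mem_filter.1 hi).2) (fun i hi => (Finset.mem_filter.1 hi).2)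
        with ⟨e, he⟩ | ⟨e, he⟩
      · refine ⟨{z, e, cU, pU}, Finset.card_le_four, fun i => ?_⟩
        by_cases h1 : Inter A (Dis A (A i ∩ U))
        · by_cases h2 : Inter A (Dis A (A i ∩ V))
          · rcases hzz i (by simp [hS, h1, h2]) with h3 | h3 | h3
            · exact ⟨z, by simp, h3⟩
            · exact ⟨e, by simp, he i (by simp [hS1]; exact Or.inl h3)⟩
            · exact ⟨cU, by simp, hcU' i (mem_Dis.2 h3)⟩
          · exact ⟨e, by simp, he i (by simp [hS1]; exact Or.inr h2)⟩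
        · exact ⟨pU, by simp, hpU i (by simp [hGU, h1])⟩
      · refine ⟨{z, e, cV, pV}, Finset.card_le_four, fun i => ?_⟩
        by_cases h2 : Inter A (Dis A (A i ∩ V))
        · by_cases h1 : Inter A (Dis A (A i ∩ U))
          · rcases hzz i (by simp [hS, h1, h2]) with h3 | h3 | h3
            · exact ⟨z, by simp, h3⟩
            · exact ⟨cV, by simp, hcV' i (mem_Dis.2 h3)⟩
            · exact ⟨e, by simp, he i (by simp [hS2]; exact Or.inl h3)⟩
          · exact ⟨e, by simp, he i (by simp [hS2]; exact Or.inr h1)⟩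
        · exact ⟨pV, by simp, hpV i (by simp [hGV, h2])⟩
  · -- all halves are good
    obtain ⟨j, hj, z, hz, hzz⟩ := zlemma hc hk t Finset.univ Finset.univ_nonempty (fun i _ =>
      ⟨meets hni (hgV i), meets hni (hgU i)⟩)
    obtain ⟨cU, hcU'⟩ := hgU j
    obtain ⟨cV, hcV'⟩ := hgV j
    refine ⟨{z, cU, cV}, (Finset.card_le_three).trans (by norm_num), fun i => ?_⟩
    rcases hzz i (Finset.mem_univ i) with h3 | h3 | h3
    · exact ⟨z, by simp, h3⟩
    · exact ⟨cV, by simp, hcV' i (mem_Dis.2 h3)⟩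
    · exact ⟨cU, by simp, hcU' i (mem_Dis.2 h3)⟩

end

/-- every finite family of convex sets in the plane in which every 33 members can be pierced by
two points can be pierced by four points -/
theorem four_points (F : Finset (Set E)) (hF : ∀ C ∈ F, Convex ℝ C)
    (hloc : ∀ G ⊆ F, G.card ≤ 33 → ∃ P : Finset E, P.card ≤ 2 ∧ ∀ C ∈ G, ∃ p ∈ P, p ∈ C) :
    ∃ P : Finset E, P.card ≤ 4 ∧ ∀ C ∈ F, ∃ p ∈ P, p ∈ C := by
  classical
  choose! P h1 h2 using hloc
  set X : Finset E := (F.powerset.filter (fun G => G.card ≤ 33)).biUnion P with hX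
  set A : {C // C ∈ F} → Set E := fun i => convexHull ℝ ((X : Set E) ∩ i.1) with hA
  have hAc : ∀ i, Convex ℝ (A i) := fun i => convex_convexHull ℝ _
  have hAk : ∀ i, IsCompact (A i) := fun i =>
    ((X.finite_toSet).inter_of_left _).isCompact_convexHull (𝕜 := ℝ)
  have hAsub : ∀ i, A i ⊆ i.1 := fun i => convexHull_min inter_subset_right (hF i.1 i.2)
  have hl : Loc A 33 := by
    intro G hG
    set G' : Finset (Set E) := G.image (fun i => i.1) with hG'
    have hG'F : G' ⊆ F := by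
      intro C hC
      obtain ⟨i, _, rfl⟩ := Finset.mem_image.1 hC
      exact i.2
    have hG'c : G'.card ≤ 33 := Finset.card_image_le.trans hG
    have hcard := h1 G' hG'F hG'c
    have hpier := h2 G' hG'F hG'c
    have hsub : ∀ p ∈ P G', p ∈ X := by
      intro p hp
      rw [hX, Finset.mem_biUnion]
      exact ⟨G', by simp [hG'F, hG'c], hp⟩
    have hmain : ∀ i ∈ G, ∃ p ∈ P G', p ∈ A i := by
      intro i hi
      obtain ⟨p, hp, hpC⟩ := hpier i.1 (Finset.mem_image_of_mem _ hi)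
      exact ⟨p, hp, subset_convexHull ℝ _ ⟨hsub p hp, hpC⟩⟩
    rcases (P G').eq_empty_or_nonempty with h0 | ⟨p, hp⟩
    · refine ⟨0, 0, fun i hi => ?_⟩
      obtain ⟨p, hp, _⟩ := hmain i hi
      rw [h0] at hp; exact absurd hp (Finset.notMem_empty _)
    · by_cases h3 : ∃ q ∈ P G', q ≠ p
      · obtain ⟨q, hq, hqp⟩ := h3
        refine ⟨p, q, fun i hi => ?_⟩
        obtain ⟨r, hr, hrA⟩ := hmain i hi
        have : r = p ∨ r = q := by
          by_contra hcon
          push Not at hcon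
          have h4 : ({p, q, r} : Finset E) ⊆ P G' := by
            intro s hs
            simp only [Finset.mem_insert, Finset.mem_singleton] at hs
            rcases hs with rfl | rfl | rfl <;> assumption
          have h5 : ({p, q, r} : Finset E).card = 3 := by
            rw [Finset.card_eq_three]
            exact ⟨p, q, r, hqp.symm, hcon.1.symm, hcon.2.symm, rfl⟩
          have := Finset.card_le_card h4
          omega
        rcases this with rfl | rfl
        · exact Or.inl hrA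
        · exact Or.inr hrA
      · push Not at h3
        refine ⟨p, p, fun i hi => ?_⟩
        obtain ⟨r, hr, hrA⟩ := hmain i hi
        rw [h3 r hr] at hrA
        exact Or.inl hrA
  obtain ⟨Q, hQ1, hQ2⟩ := main4 hAc hAk hl
  refine ⟨Q, hQ1, fun C hC => ?_⟩
  obtain ⟨p, hp, hpA⟩ := hQ2 ⟨C, hC⟩
  exact ⟨p, hp, hAsub _ hpA⟩

end Pool.Agent.H212R4.Pierce
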